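import Pool.Agent.Q295.LB.Stm

set_option autoImplicit false

/-!
# Project LB: assembly
-/

namespace Pool.Agent.Q295.LB

noncomputable section

open Filter Topology

theorem Ex_one_sub {S α : Type} [Fintype α] (w : α → ℝ) (hw : ∑ a, w a = 1) (F : S → α → S)
    (f : S → ℝ) (m : ℕ) (x : S) : Ex w F m (fun y => 1 - f y) x = 1 - Ex w F m f x := by
  induction m generalizing x with
  | zero => rfl
  | succ m ih =>
    simp only [Ex, ih, mul_sub, Finset.sum_sub_distrib, mul_one, hw]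

theorem wt_sum {n : ℕ} [NeZero n] (p : ZMod n → ℝ) : ∑ a, wt p a = ∑ u, p u := by
  rw [Fintype.sum_prod_type]
  refine Finset.sum_congr rfl fun u _ => ?_
  simp only [wt, Fintype.sum_bool]
  ring

theorem wt_mul_sum {n : ℕ} [NeZero n] (p p' : ZMod n → ℝ) :
    (Fintype.card (ZMod n × Bool) : ℝ) * ∑ a, wt p a * wt p' a = n * ∑ u, p u * p' u := by
  rw [Fintype.sum_prod_type, Fintype.card_prod, ZMod.card, Fintype.card_bool]
  have : ∀ u : ZMod n, (∑ c : Bool, wt p (u, c) * wt p' (u, c)) = p u * p' u / 2 := by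
    intro u
    simp only [wt, Fintype.sum_bool]
    ring
  simp only [this, ← Finset.sum_div]
  push_cast
  ring

theorem mai (hBRG : S_BRG) (hCHI : S_CHI) (hTIL : S_TIL) (hQBB : S_QBB) (hPAR : S_PAR) :
    S_MAI := by
  intro η hη
  obtain ⟨c, hc, n₀, h⟩ := hPAR η hη
  refine ⟨c, hc, n₀, fun n _ m hn hm1 hm2 => ?_⟩
  obtain ⟨L, N, θ, M, lam, h3, hm0, hL, hN, hNL, h48, hθ, hθ1, hM, h4, h2, hl, hl1, hcl, htot⟩ :=
    h n m hn hm1 hm2
  obtain ⟨hp0, hp1, hpd, hpp, hpq⟩ := hTIL n L N θ hL hNL hθ.le hθ1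
  have hn0 : (0 : ℝ) < n := by
    have : 0 < n := by omega
    exact_mod_cast this
  set B : Set (ZMod n → ℕ) := {x | ((maxLoad x : ℕ) : ℝ) < (m : ℝ) / n + θ * (m / n) / 32} with hB
  set f : (ZMod n → ℕ) → ℝ := B.indicator fun _ => (1 : ℝ) with hf
  set A : Set (ZMod n → ℕ) := {x | (m : ℝ) / n + c * Real.log n ≤ maxLoad x} with hA
  have hAB : (A.indicator fun _ => (1 : ℝ)) = fun y => 1 - f y := by
    funext y
    by_cases hy : y ∈ A
    · have hyB : y ∉ B := by
        rw [hB]; rw [hA] at hy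
        simp only [Set.mem_setOf_eq, not_lt] at hy ⊢
        rw [← hcl]; exact hy
      rw [Set.indicator_of_mem hy, hf, Set.indicator_of_notMem hyB]; ring
    · have hyB : y ∈ B := by
        rw [hB]; rw [hA] at hy
        simp only [Set.mem_setOf_eq, not_le] at hy ⊢
        rw [← hcl]; exact hy
      rw [Set.indicator_of_notMem hy, hf, Set.indicator_of_mem hyB]; ring
  have hLip : Lip (fun _ : ZMod n => 0) := fun v => ⟨by simp, by simp⟩
  have hpr : prob (cyc n) m A =
      Ex (wt fun _ => 1 / (n : ℝ)) stp m (fun y => 1 - f y) (fun _ => 0) := by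
    rw [prob, hBRG n h3 m _ hLip A, hAB]
  set T : ℝ := 2 * n * Real.exp ((lam ^ 2 + 2 * lam * θ) * (m / n) - lam * M) +
      512 * (m / n) / (L * (θ * (m / n))) +
      49152 * (m / n) / ((θ * (m / n)) ^ 2 * L) with hT
  have hf0 : ∀ y, 0 ≤ f y := fun y => Set.indicator_nonneg (fun _ _ => zero_le_one) y
  have hf1 : ∀ y, f y ≤ 1 := fun y => by
    rw [hf]; exact Set.indicator_le' (fun _ _ => le_rfl) (fun _ _ => zero_le_one) y
  have hchi := hCHI (ZMod n → ℕ) (ZMod n × Bool) N stp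
    (fun j => wt (ptl n L ((j : ℕ) * L) θ)) (θ ^ 2 * L / n) hN (by positivity)
    (fun j a => by
      have := hp0 j j.2 a.1
      simp only [wt]; linarith)
    (fun j => by rw [wt_sum]; exact hp1 j j.2)
    (fun j => by rw [wt_mul_sum]; exact hpp j j.2)
    (fun j j' hjj => by
      rw [wt_mul_sum]
      exact hpq j j.2 j' j'.2 fun h => hjj (Fin.ext h))
    (fun y => 1 - f y) (fun y => by linarith [hf1 y]) (fun y => by linarith [hf0 y]) m
    (fun _ => 0)
  have hw : (fun _ : ZMod n × Bool => 1 / (Fintype.card (ZMod n × Bool) : ℝ)) =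
      wt fun _ => 1 / (n : ℝ) := by
    funext a
    simp only [wt, Fintype.card_prod, ZMod.card, Fintype.card_bool]
    push_cast
    field_simp
  rw [hw, ← hpr] at hchi
  have hj : ∀ j : Fin N, 1 - T ≤ Ex (wt (ptl n L ((j : ℕ) * L) θ)) stp m (fun y => 1 - f y)
      (fun _ => 0) := by
    intro j
    rw [Ex_one_sub _ (by rw [wt_sum]; exact hp1 j j.2)]
    have := hQBB n L N j θ hL hNL j.2 h48 hθ hθ1 M lam hM h4 h2 hl hl1 m hm0
    rw [← hB, ← hf, ← hT] at this
    linarith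
  have hsum : 1 - T ≤ (1 / (N : ℝ)) * ∑ j : Fin N, Ex (wt (ptl n L ((j : ℕ) * L) θ)) stp m
      (fun y => 1 - f y) (fun _ => 0) := by
    have hN' : (0 : ℝ) < N := by exact_mod_cast hN
    have h1 : ∑ _j : Fin N, (1 - T) ≤ ∑ j : Fin N, Ex (wt (ptl n L ((j : ℕ) * L) θ)) stp m
      (fun y => 1 - f y) (fun _ => 0) := Finset.sum_le_sum fun j _ => hj j
    rw [Finset.sum_const, Finset.card_univ, Fintype.card_fin, nsmul_eq_mul] at h1
    rw [one_div, ← div_eq_inv_mul, le_div_iff₀ hN']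
    linarith
  linarith

end

end Pool.Agent.Q295.LB
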