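import Mathlib

set_option autoImplicit false

/-!
# Local search allocation (project LB of helper295)

Balls are thrown at uniform vertices of a finite graph and walk downhill (to a uniformly chosen
neighbour of minimal load, as long as some neighbour has strictly smaller load).
-/

namespace Pool.Agent.Q295.LB

noncomputable section

section general

variable {V : Type} [Fintype V]

open Classical in
/-- The neighbours of `v` whose load is strictly smaller than the load of `v` and minimal among the
loads of all neighbours of `v`. -/
def lower (G : SimpleGraph V) (x : V → ℕ) (v : V) : Finset V :=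
  Finset.univ.filter fun w => G.Adj v w ∧ x w < x v ∧ ∀ w', G.Adj v w' → x w ≤ x w'

open Classical in
/-- The law of the position of a ball after at most `k` moves of the local search started at `v`:
as long as some neighbour has strictly smaller load, the ball moves to a uniformly random
neighbour of minimal load. -/
def walk (G : SimpleGraph V) (x : V → ℕ) : ℕ → V → PMF V
  | 0, v => PMF.pure v
  | k + 1, v =>
    if h : (lower G x v).Nonempty then
      (PMF.uniformOfFinset (lower G x v) h).bind (walk G x k)
    else PMF.pure v

variable [DecidableEq V]

/-- The loads after one more ball has been allocated to `v`. -/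
def inc (x : V → ℕ) (v : V) : V → ℕ := Function.update x v (x v + 1)

variable [Nonempty V]

/-- The law of the loads after one further ball has been placed: its birthplace `u` is uniform, it
performs the local search (at most `x u` moves, since every move lowers the load of the current
vertex), and it is allocated to the vertex where it stops. -/
def place (G : SimpleGraph V) (x : V → ℕ) : PMF (V → ℕ) :=
  (PMF.uniformOfFintype V).bind fun u => (walk G x (x u) u).map (inc x)

/-- The law of the loads after `m` further balls have been placed one after the other, starting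
with the loads `x`. -/
def alloc (G : SimpleGraph V) : ℕ → (V → ℕ) → PMF (V → ℕ)
  | 0, x => PMF.pure x
  | m + 1, x => (place G x).bind (alloc G m)

/-- The probability that the loads after `m` balls (starting with no balls) lie in `A`. -/
def prob (G : SimpleGraph V) (m : ℕ) (A : Set (V → ℕ)) : ℝ :=
  ((alloc G m fun _ => 0).toOuterMeasure A).toReal

end general

/-- The maximum load. -/
def maxLoad {V : Type} [Fintype V] (x : V → ℕ) : ℕ := Finset.univ.sup x

/-- The neighbourhood growth parameter `R₂`. -/
def R2 {V : Type} [Fintype V] (G : SimpleGraph V) : ℕ :=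
  sInf {r : ℕ | ∀ u : V,
    Real.log (Fintype.card V) ≤ (r : ℝ) * (Nat.card {v : V // G.dist u v ≤ r} : ℝ)}

/-- Vertex-transitive graphs. -/
def VT {V : Type} (G : SimpleGraph V) : Prop := ∀ u v : V, ∃ f : G ≃g G, f u = v

open Filter Topology in
/-- The two-sided bound of Q1 with the constants `c` and `C`: for every sequence of connected
vertex-transitive graphs `G k` with `n → ∞` vertices and `R₂ → ∞`, and every sequence of numbers of
balls `m k` with `m / (n R₂) → ∞`, the probability of
`m / n + c R₂ ≤ maximum load ≤ m / n + C R₂` tends to one. -/
def TwoSided (c C : ℝ) : Prop :=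
  ∀ (V : ℕ → Type) [∀ k, Fintype (V k)] [∀ k, DecidableEq (V k)] [∀ k, Nonempty (V k)]
    (G : ∀ k, SimpleGraph (V k)) (m : ℕ → ℕ),
    (∀ k, (G k).Connected) → (∀ k, VT (G k)) →
    Tendsto (fun k => (Fintype.card (V k) : ℝ)) atTop atTop →
    Tendsto (fun k => (R2 (G k) : ℝ)) atTop atTop →
    Tendsto (fun k => (m k : ℝ) / ((Fintype.card (V k) : ℝ) * R2 (G k))) atTop atTop →
    Tendsto (fun k => prob (G k) (m k)
      {x | (m k : ℝ) / Fintype.card (V k) + c * R2 (G k) ≤ maxLoad x ∧
        (maxLoad x : ℝ) ≤ (m k : ℝ) / Fintype.card (V k) + C * R2 (G k)}) atTop (𝓝 1)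

/-- The cycle with vertex set `ZMod n`. -/
def cyc (n : ℕ) : SimpleGraph (ZMod n) where
  Adj u v := u ≠ v ∧ (v = u + 1 ∨ u = v + 1)
  symm := ⟨fun _ _ h => ⟨h.1.symm, h.2.symm⟩⟩
  loopless := ⟨fun _ h => h.1 rfl⟩

end

end Pool.Agent.Q295.LB
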