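import Pool.Agent.Q295.LB.Brw

set_option autoImplicit false

namespace Pool.Agent.Q295.LB

theorem alloc_succ {n : ℕ} [NeZero n] (h3 : 3 ≤ n) {x : ZMod n → ℕ} (hx : Lip x) (m : ℕ) :
    alloc (cyc n) (m + 1) x = (PMF.uniformOfFintype (ZMod n)).bind fun u =>
      (PMF.uniformOfFintype Bool).bind fun c => alloc (cyc n) m (stp x (u, c)) := by
  show (place (cyc n) x).bind (alloc (cyc n) m) = _
  unfold place
  rw [PMF.bind_bind]
  congr 1
  funext u
  rw [brw n h3 x hx u, PMF.map_comp, PMF.bind_map]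
  rfl

theorem outer_le_one {α : Type} (p : PMF α) (A : Set α) : p.toOuterMeasure A ≤ 1 := by
  rw [PMF.toOuterMeasure_apply, ← p.tsum_coe]
  exact ENNReal.tsum_le_tsum fun x => Set.indicator_le_self' (fun _ _ => zero_le) x

theorem outer_ne_top {α : Type} (p : PMF α) (A : Set α) : p.toOuterMeasure A ≠ ⊤ :=
  ne_top_of_le_ne_top ENNReal.one_ne_top (outer_le_one p A)

theorem brg : S_BRG := by
  intro n _ h3 m
  induction m with
  | zero =>
    intro x _ A
    classical
    show ((PMF.pure x).toOuterMeasure A).toReal = A.indicator (fun _ => (1 : ℝ)) x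
    rw [PMF.toOuterMeasure_pure_apply]
    by_cases h : x ∈ A
    · rw [if_pos h, Set.indicator_of_mem h]; simp
    · rw [if_neg h, Set.indicator_of_notMem h]; simp
  | succ m ih =>
    intro x hx A
    have hn0 : (0 : ℝ) < n := by exact_mod_cast NeZero.pos n
    rw [alloc_succ h3 hx, PMF.toOuterMeasure_bind_apply, tsum_fintype]
    have e : ∀ u : ZMod n, (PMF.uniformOfFintype (ZMod n)) u *
        ((PMF.uniformOfFintype Bool).bind fun c => alloc (cyc n) m (stp x (u, c))).toOuterMeasure A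
        = (n : ENNReal)⁻¹ * ((2 : ENNReal)⁻¹ * (alloc (cyc n) m (stp x (u, true))).toOuterMeasure A +
          (2 : ENNReal)⁻¹ * (alloc (cyc n) m (stp x (u, false))).toOuterMeasure A) := by
      intro u
      rw [PMF.toOuterMeasure_bind_apply, tsum_fintype, Fintype.sum_bool,
        PMF.uniformOfFintype_apply, ZMod.card]
      simp only [PMF.uniformOfFintype_apply, Fintype.card_bool]
      norm_num
    simp only [e]
    have ht : ∀ u c, (alloc (cyc n) m (stp x (u, c))).toOuterMeasure A ≠ ⊤ := fun u c =>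
      outer_ne_top _ _
    have h2 : (2 : ENNReal)⁻¹ ≠ ⊤ := by simp
    have hnn : (n : ENNReal)⁻¹ ≠ ⊤ := by
      rw [ENNReal.inv_ne_top]
      exact_mod_cast (NeZero.ne n)
    rw [ENNReal.toReal_sum (fun u _ => ENNReal.mul_ne_top hnn
      (ENNReal.add_ne_top.2 ⟨ENNReal.mul_ne_top h2 (ht _ _), ENNReal.mul_ne_top h2 (ht _ _)⟩))]
    show _ = ∑ a : ZMod n × Bool, wt (fun _ => 1 / (n : ℝ)) a *
      Ex (wt fun _ => 1 / (n : ℝ)) stp m (A.indicator fun _ => (1 : ℝ)) (stp x a)
    rw [Fintype.sum_prod_type]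
    refine Finset.sum_congr rfl fun u _ => ?_
    rw [Fintype.sum_bool, ENNReal.toReal_mul, ENNReal.toReal_add (ENNReal.mul_ne_top h2 (ht _ _))
      (ENNReal.mul_ne_top h2 (ht _ _)), ENNReal.toReal_mul, ENNReal.toReal_mul,
      ih _ (lip n x hx _), ih _ (lip n x hx _)]
    simp only [wt, ENNReal.toReal_inv, ENNReal.toReal_natCast, ENNReal.toReal_ofNat]
    ring

end Pool.Agent.Q295.LB
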