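import Pool.Agent.Q295.LB.Sli

set_option autoImplicit false

namespace Pool.Agent.Q295.LB

section walk
variable {V : Type} [Fintype V] (G : SimpleGraph V) (x : V → ℕ) (v : V) (k : ℕ)

theorem walk_empty (h : lower G x v = ∅) : walk G x (k + 1) v = PMF.pure v := by
  have : ¬ (lower G x v).Nonempty := by rw [h]; exact Finset.not_nonempty_empty
  simp only [walk, dif_neg this]

theorem walk_pos (hne : (lower G x v).Nonempty) :
    walk G x (k + 1) v = (PMF.uniformOfFinset (lower G x v) hne).bind (walk G x k) := by
  simp only [walk, dif_pos hne]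

theorem walk_singleton (w : V) (h : lower G x v = {w}) : walk G x (k + 1) v = walk G x k w := by
  classical
  have hne : (lower G x v).Nonempty := by rw [h]; exact Finset.singleton_nonempty w
  rw [walk_pos G x v k hne]
  ext z
  rw [PMF.bind_apply, tsum_eq_single w]
  · rw [PMF.uniformOfFinset_apply, h]
    simp
  · intro y hy
    rw [PMF.uniformOfFinset_apply, h, if_neg (by simpa using hy), zero_mul]

theorem walk_pair (a b : V) (hab : a ≠ b) (h : ∀ w, w ∈ lower G x v ↔ w = a ∨ w = b) :
    walk G x (k + 1) v =
      (PMF.uniformOfFintype Bool).bind fun c => walk G x k (if c = true then a else b) := by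
  classical
  have hs : lower G x v = {a, b} := by
    ext w; rw [h w]; simp
  have hne : (lower G x v).Nonempty := by rw [hs]; exact ⟨a, by simp⟩
  rw [walk_pos G x v k hne]
  ext z
  rw [PMF.bind_apply, PMF.bind_apply, tsum_fintype, tsum_fintype, Fintype.sum_bool]
  have h1 : ∀ y, PMF.uniformOfFinset (lower G x v) hne y = if y = a ∨ y = b then 2⁻¹ else 0 := by
    intro y
    rw [PMF.uniformOfFinset_apply, hs, Finset.card_pair hab]
    simp
  simp only [h1]
  rw [← Finset.sum_subset (Finset.subset_univ {a, b}) (by
    intro y _ hy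
    rw [if_neg (by simpa using hy), zero_mul]), Finset.sum_pair hab]
  simp

end walk

theorem adj_iff {n : ℕ} (h3 : 3 ≤ n) (u v : ZMod n) :
    (cyc n).Adj u v ↔ v = u + 1 ∨ v = u - 1 := by
  have : Fact (1 < n) := ⟨by omega⟩
  have h10 : (1 : ZMod n) ≠ 0 := one_ne_zero
  show (u ≠ v ∧ (v = u + 1 ∨ u = v + 1)) ↔ _
  constructor
  · rintro ⟨-, h | h⟩
    · exact Or.inl h
    · right; rw [h]; ring
  · rintro (h | h)
    · refine ⟨fun h' => h10 ?_, Or.inl h⟩
      rw [← h'] at h
      simpa using h.symm
    · refine ⟨fun h' => h10 ?_, Or.inr (by rw [h]; ring)⟩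
      rw [← h'] at h
      have : u - (u - 1) = 0 := by rw [← h]; ring
      simp at this

theorem mem_lower {n : ℕ} [NeZero n] (h3 : 3 ≤ n) {x : ZMod n → ℕ} (hx : Lip x) (v w : ZMod n) :
    w ∈ lower (cyc n) x v ↔ (w = v + 1 ∨ w = v - 1) ∧ x w < x v := by
  simp only [lower, Finset.mem_filter, Finset.mem_univ, true_and, adj_iff h3]
  constructor
  · rintro ⟨h1, h2, -⟩; exact ⟨h1, h2⟩
  · rintro ⟨h1, h2⟩
    refine ⟨h1, h2, fun w' hw' => ?_⟩
    rcases hw' with rfl | rfl
    · have := (hx v).2; omega
    · have := (hx (v - 1)).1
      rw [sub_add_cancel] at this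
      omega

theorem walkR {n : ℕ} [NeZero n] (h3 : 3 ≤ n) {x : ZMod n → ℕ} (hx : Lip x) (k : ℕ) (v : ZMod n)
    (h : x v ≤ x (v - 1)) : walk (cyc n) x k v = PMF.pure (slR x k v) := by
  induction k generalizing v with
  | zero => rfl
  | succ k ih =>
    by_cases hr : x (v + 1) < x v
    · rw [walk_singleton _ _ _ _ (v + 1), ih (v + 1) (by rw [add_sub_cancel_right]; omega)]
      · simp only [slR, if_pos hr]
      · ext w
        rw [mem_lower h3 hx, Finset.mem_singleton]
        constructor
        · rintro ⟨h1 | h1, h2⟩
          · exact h1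
          · rw [h1] at h2; omega
        · rintro rfl; exact ⟨Or.inl rfl, hr⟩
    · rw [walk_empty]
      · simp only [slR, if_neg hr]
      · ext w
        rw [mem_lower h3 hx]
        simp only [Finset.notMem_empty, iff_false]
        rintro ⟨h1 | h1, h2⟩ <;> rw [h1] at h2 <;> omega

theorem walkL {n : ℕ} [NeZero n] (h3 : 3 ≤ n) {x : ZMod n → ℕ} (hx : Lip x) (k : ℕ) (v : ZMod n)
    (h : x v ≤ x (v + 1)) : walk (cyc n) x k v = PMF.pure (slL x k v) := by
  induction k generalizing v with
  | zero => rfl
  | succ k ih =>
    by_cases hr : x (v - 1) < x v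
    · rw [walk_singleton _ _ _ _ (v - 1), ih (v - 1) (by rw [sub_add_cancel]; omega)]
      · simp only [slL, if_pos hr]
      · ext w
        rw [mem_lower h3 hx, Finset.mem_singleton]
        constructor
        · rintro ⟨h1 | h1, h2⟩
          · rw [h1] at h2; omega
          · exact h1
        · rintro rfl; exact ⟨Or.inr rfl, hr⟩
    · rw [walk_empty]
      · simp only [slL, if_neg hr]
      · ext w
        rw [mem_lower h3 hx]
        simp only [Finset.notMem_empty, iff_false]
        rintro ⟨h1 | h1, h2⟩ <;> rw [h1] at h2 <;> omega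

theorem map_const_pmf {α β : Type} (p : PMF α) (b : β) (f : α → β) (h : ∀ a, f a = b) :
    p.map f = PMF.pure b := by
  have : f = Function.const α b := funext h
  rw [this, PMF.map_const]

theorem brw : S_BRW := by
  intro n _ h3 x hx u
  have : Fact (1 < n) := ⟨by omega⟩
  by_cases hr : x (u + 1) < x u
  · by_cases hl : x (u - 1) < x u
    · -- both neighbours are lower
      obtain ⟨k, hk⟩ : ∃ k, x u = k + 1 := ⟨x u - 1, by omega⟩
      have hv1 : x (u + 1) = k := by
        have := (hx u).2
        omega
      have hv2 : x (u - 1) = k := by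
        have := (hx (u - 1)).1
        rw [sub_add_cancel] at this
        omega
      have hne : u + 1 ≠ u - 1 := by
        intro h
        have h2 : ((2 : ℕ) : ZMod n) = 0 := by
          have : u + 1 - (u - 1) = 0 := by rw [h]; ring
          have e : u + 1 - (u - 1) = 2 := by ring
          rw [e] at this
          exact_mod_cast this
        rw [ZMod.natCast_eq_zero_iff] at h2
        have := Nat.le_of_dvd (by norm_num) h2
        omega
      have e := walk_pair (cyc n) x u k (u + 1) (u - 1) hne (fun w => by
        rw [mem_lower h3 hx]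
        constructor
        · rintro ⟨h, -⟩; exact h
        · rintro (rfl | rfl)
          · exact ⟨Or.inl rfl, hr⟩
          · exact ⟨Or.inr rfl, hl⟩)
      rw [hk, e, ← PMF.bind_pure_comp]
      congr 1
      funext c
      cases c with
      | true =>
        have hs : sl x u true = slR x k (u + 1) := by
          unfold sl
          rw [if_pos ⟨hr, fun _ => rfl⟩, hk]
          simp only [slR, if_pos hr]
        show walk (cyc n) x k (if true = true then u + 1 else u - 1) = PMF.pure (sl x u true)
        rw [if_pos rfl, walkR h3 hx k (u + 1) (by rw [add_sub_cancel_right]; omega), hs]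
      | false =>
        have hs : sl x u false = slL x k (u - 1) := by
          unfold sl
          rw [if_neg (fun h => absurd (h.2 hl) (by simp)), hk]
          simp only [slL, if_pos hl]
        show walk (cyc n) x k (if false = true then u + 1 else u - 1) = PMF.pure (sl x u false)
        rw [if_neg (by simp), walkL h3 hx k (u - 1) (by rw [sub_add_cancel]; omega), hs]
    · -- only the right one
      rw [walkR h3 hx (x u) u (by omega), map_const_pmf]
      intro c
      simp only [sl]
      rw [if_pos ⟨hr, fun h => absurd h hl⟩]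
  · rw [walkL h3 hx (x u) u (by omega), map_const_pmf]
    intro c
    simp only [sl]
    rw [if_neg (fun h => hr h.1)]

end Pool.Agent.Q295.LB
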