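import Pool.Agent.Q295.LB.Base

set_option autoImplicit false

/-!
# The driven process on the cycle (auxiliary definitions, project LB of helper295)
-/

namespace Pool.Agent.Q295.LB

noncomputable section

/-! ### The driven process on the cycle -/

/-- Loads of neighbouring vertices of the cycle differ by at most one. -/
def Lip {n : ℕ} (x : ZMod n → ℕ) : Prop := ∀ v, x (v + 1) ≤ x v + 1 ∧ x v ≤ x (v + 1) + 1

/-- Slide to the right while the load decreases (at most `k` moves). -/
def slR {n : ℕ} (x : ZMod n → ℕ) : ℕ → ZMod n → ZMod n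
  | 0, v => v
  | k + 1, v => if x (v + 1) < x v then slR x k (v + 1) else v

/-- Slide to the left while the load decreases (at most `k` moves). -/
def slL {n : ℕ} (x : ZMod n → ℕ) : ℕ → ZMod n → ZMod n
  | 0, v => v
  | k + 1, v => if x (v - 1) < x v then slL x k (v - 1) else v

/-- The final position of a ball born at `u`; the coin `c` breaks the tie. -/
def sl {n : ℕ} (x : ZMod n → ℕ) (u : ZMod n) (c : Bool) : ZMod n :=
  if x (u + 1) < x u ∧ (x (u - 1) < x u → c = true) then slR x (x u) u else slL x (x u) u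

/-- One ball with birthplace `a.1` and coin `a.2`. -/
def stp {n : ℕ} (x : ZMod n → ℕ) (a : ZMod n × Bool) : ZMod n → ℕ := inc x (sl x a.1 a.2)

/-- Expectation after `m` steps of the chain which moves from `x` to `F x a` with probability
`w a`. -/
def Ex {S α : Type} [Fintype α] (w : α → ℝ) (F : S → α → S) : ℕ → (S → ℝ) → S → ℝ
  | 0, f, x => f x
  | m + 1, f, x => ∑ a, w a * Ex w F m f (F x a)

/-- Weights of the driving pair (birthplace with law `p`, fair coin). -/
def wt {n : ℕ} (p : ZMod n → ℝ) (a : ZMod n × Bool) : ℝ := p a.1 / 2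

/-- Exponential sum of the loads centred at `s`. -/
def Zf {n : ℕ} [NeZero n] (lam s : ℝ) (x : ZMod n → ℕ) : ℝ := ∑ v, Real.exp (lam * ((x v : ℝ) - s))

/-- Local energy of the loads centred at `s`. -/
def En {n : ℕ} [NeZero n] (psi : ZMod n → ℝ) (s : ℝ) (x : ZMod n → ℕ) : ℝ :=
  ∑ v, psi v * ((x v : ℝ) - s) ^ 2

/-- The weight function centred at the vertex `b`, with scale `L`. -/
def psi (n L b : ℕ) (v : ZMod n) : ℝ :=
  Real.exp (-(((v - (b : ZMod n)).val : ℝ) / L)) +
    Real.exp (-(((n : ℝ) - ((v - (b : ZMod n)).val : ℝ)) / L))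

/-- The tilted law of the birthplace: more balls are born in `[b, b + L)`. -/
def ptl (n L b : ℕ) (θ : ℝ) (u : ZMod n) : ℝ :=
  (1 + θ * ((if b ≤ u.val ∧ u.val < b + L then 1 else 0) - (L : ℝ) / n)) / n

end

end Pool.Agent.Q295.LB
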