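import Pool.Agent.Q295.LB.Asm

set_option autoImplicit false

/-!
# Project LB: the final theorem from the main estimate
-/

namespace Pool.Agent.Q295.LB

noncomputable section

open Filter Topology

theorem prob_disj {V : Type} [Fintype V] [DecidableEq V] [Nonempty V] (G : SimpleGraph V) (m : ℕ)
    (A B : Set (V → ℕ)) (h : ∀ x, x ∈ A → x ∉ B) : prob G m A + prob G m B ≤ 1 := by
  set p := alloc G m fun _ => 0
  have hle : p.toOuterMeasure A + p.toOuterMeasure B ≤ 1 := by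
    rw [PMF.toOuterMeasure_apply, PMF.toOuterMeasure_apply, ← ENNReal.tsum_add, ← p.tsum_coe]
    refine ENNReal.tsum_le_tsum fun x => ?_
    by_cases hx : x ∈ A
    · rw [Set.indicator_of_mem hx, Set.indicator_of_notMem (h x hx), add_zero]
    · rw [Set.indicator_of_notMem hx, zero_add]
      exact Set.indicator_le_self' (fun _ _ => zero_le) x
  have hA : p.toOuterMeasure A ≠ ⊤ := fun h => by
    rw [h, top_add] at hle; exact absurd hle (by simp)
  have hB : p.toOuterMeasure B ≠ ⊤ := fun h => by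
    rw [h, add_top] at hle; exact absurd hle (by simp)
  have := ENNReal.toReal_mono ENNReal.one_ne_top hle
  rw [ENNReal.toReal_add hA hB, ENNReal.toReal_one] at this
  exact this

theorem prob_nonneg {V : Type} [Fintype V] [DecidableEq V] [Nonempty V] (G : SimpleGraph V)
    (m : ℕ) (A : Set (V → ℕ)) : 0 ≤ prob G m A := ENNReal.toReal_nonneg

theorem prob_mono {V : Type} [Fintype V] [DecidableEq V] [Nonempty V] (G : SimpleGraph V) (m : ℕ)
    (A B : Set (V → ℕ)) (h : A ⊆ B) : prob G m A ≤ prob G m B := by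
  have hB : (alloc G m fun _ => 0).toOuterMeasure B ≠ ⊤ := by
    have : (alloc G m fun _ => 0).toOuterMeasure B ≤ 1 := by
      rw [PMF.toOuterMeasure_apply, ← (alloc G m fun _ => 0).tsum_coe]
      refine ENNReal.tsum_le_tsum fun x => ?_
      exact Set.indicator_le_self' (fun _ _ => zero_le) x
    exact ne_top_of_le_ne_top ENNReal.one_ne_top this
  exact ENNReal.toReal_mono hB (MeasureTheory.OuterMeasure.mono _ h)

/-- The number of balls. -/
def mm (k : ℕ) : ℕ := ⌈((k + 3 : ℕ) : ℝ) * Real.log ((k + 3 : ℕ) : ℝ) ^ 3⌉₊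

theorem log_tend : Tendsto (fun k : ℕ => Real.log ((k + 3 : ℕ) : ℝ)) atTop atTop :=
  Real.tendsto_log_atTop.comp (tendsto_natCast_atTop_atTop.comp (tendsto_add_atTop_nat 3))

theorem mm_le : ∀ᶠ k : ℕ in atTop, (mm k : ℝ) ≤ ((k + 3 : ℕ) : ℝ) * √((k + 3 : ℕ) : ℝ) := by
  have h1 : Tendsto (fun x : ℝ => Real.log x ^ 4 / x) atTop (𝓝 0) := by
    have := Real.isLittleO_pow_log_id_atTop (n := 4)
    exact this.tendsto_div_nhds_zero
  have hn : Tendsto (fun k : ℕ => ((k + 3 : ℕ) : ℝ)) atTop atTop :=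
    tendsto_natCast_atTop_atTop.comp (tendsto_add_atTop_nat 3)
  -- use log^4 at the square root: log (√n) = log n / 2
  have hs : Tendsto (fun k : ℕ => √((k + 3 : ℕ) : ℝ)) atTop atTop :=
    (Real.tendsto_sqrt_atTop).comp hn
  have h2 := h1.comp hs
  have h3 : ∀ᶠ k : ℕ in atTop, Real.log (√((k + 3 : ℕ) : ℝ)) ^ 4 / √((k + 3 : ℕ) : ℝ) < 1 / 16 :=
    h2.eventually (gt_mem_nhds (by norm_num))
  have h4 : ∀ᶠ k : ℕ in atTop, (2 : ℝ) ≤ Real.log ((k + 3 : ℕ) : ℝ) :=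
    log_tend.eventually (eventually_ge_atTop 2)
  filter_upwards [h3, h4] with k h3 h4
  set n : ℝ := ((k + 3 : ℕ) : ℝ) with hnd
  have hn3 : (3 : ℝ) ≤ n := by rw [hnd]; push_cast; linarith [(Nat.cast_nonneg k : (0 : ℝ) ≤ k)]
  have hsn : 0 < √n := Real.sqrt_pos.2 (by linarith)
  rw [Real.log_sqrt (by linarith), div_lt_iff₀ hsn] at h3
  have h5 : Real.log n ^ 4 < √n := by nlinarith [h3]
  have h6 : (mm k : ℝ) ≤ n * Real.log n ^ 3 + 1 :=
    (Nat.ceil_lt_add_one (by positivity)).le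
  have h7 : n * Real.log n ^ 3 + 1 ≤ n * Real.log n ^ 4 := by
    have e1 : 1 ≤ Real.log n ^ 3 := one_le_pow₀ (by linarith)
    have e2 : Real.log n ^ 3 * 2 ≤ Real.log n ^ 4 := by
      rw [pow_succ (Real.log n) 3]
      exact mul_le_mul_of_nonneg_left h4 (by positivity)
    nlinarith
  nlinarith

theorem final (hMAI : S_MAI) (hR2U : S_R2U) (hR2L : S_R2L) (hCON : S_CON) :
    (∀ η : ℝ, 0 < η → ∃ c : ℝ, 0 < c ∧ ∃ n₀ : ℕ, ∀ (n : ℕ) [NeZero n] (m : ℕ),
      n₀ ≤ n → (n : ℝ) * Real.log n ^ 3 ≤ m → (m : ℝ) ≤ n * √n →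
      1 - η ≤ prob (cyc n) m {x | (m : ℝ) / n + c * Real.log n ≤ maxLoad x}) ∧
    (∃ m : ℕ → ℕ, (∀ k, (cyc (k + 3)).Connected ∧ VT (cyc (k + 3))) ∧
      Tendsto (fun k => (R2 (cyc (k + 3)) : ℝ)) atTop atTop ∧
      Tendsto (fun k => (m k : ℝ) / (((k + 3 : ℕ) : ℝ) * R2 (cyc (k + 3)))) atTop atTop ∧
      ∀ C : ℝ, Tendsto (fun k => prob (cyc (k + 3)) (m k)
        {x | (maxLoad x : ℝ) ≤ (m k : ℝ) / ((k + 3 : ℕ) : ℝ) + C * R2 (cyc (k + 3))})
        atTop (𝓝 0)) ∧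
    ¬ ∃ c C : ℝ, 0 < c ∧ c ≤ C ∧ TwoSided c C := by
  have hc3 : ∀ k : ℕ, 3 ≤ k + 3 := fun k => by omega
  have hR : Tendsto (fun k => (R2 (cyc (k + 3)) : ℝ)) atTop atTop := by
    have h1 : Tendsto (fun k : ℕ => (√(Real.log ((k + 3 : ℕ) : ℝ)) - 1) / 2) atTop atTop := by
      refine Tendsto.atTop_div_const (by norm_num) ?_
      exact tendsto_atTop_add_const_right _ _ (Real.tendsto_sqrt_atTop.comp log_tend)
    refine tendsto_atTop_mono (fun k => ?_) h1
    have h2 := hR2L (k + 3) (hc3 k)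
    have h3 : √(Real.log ((k + 3 : ℕ) : ℝ)) ≤ 2 * (R2 (cyc (k + 3)) : ℝ) + 1 :=
      (Real.sqrt_le_left (by positivity)).2 h2
    linarith
  have hmR : Tendsto (fun k => (mm k : ℝ) / (((k + 3 : ℕ) : ℝ) * R2 (cyc (k + 3)))) atTop
      atTop := by
    have h1 : Tendsto (fun k : ℕ => Real.log ((k + 3 : ℕ) : ℝ) / 2) atTop atTop :=
      log_tend.atTop_div_const (by norm_num)
    refine tendsto_atTop_mono' atTop ?_ h1
    have h4 : ∀ᶠ k : ℕ in atTop, (1 : ℝ) ≤ Real.log ((k + 3 : ℕ) : ℝ) :=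
      log_tend.eventually (eventually_ge_atTop 1)
    filter_upwards [h4, hR.eventually (eventually_gt_atTop 0)] with k h4 hR0
    set n : ℝ := ((k + 3 : ℕ) : ℝ) with hnd
    have hn3 : (3 : ℝ) ≤ n := by rw [hnd]; push_cast; linarith [(Nat.cast_nonneg k : (0 : ℝ) ≤ k)]
    have h2 := hR2U (k + 3) (hc3 k)
    have h5 : (n * Real.log n ^ 3 : ℝ) ≤ mm k := Nat.le_ceil _
    rw [div_le_div_iff₀ (by norm_num) (by positivity)]
    have h6 : √(Real.log n) ≤ Real.log n := by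
      rw [Real.sqrt_le_left (by linarith)]
      nlinarith
    have h7 : (R2 (cyc (k + 3)) : ℝ) ≤ 2 * Real.log n := by linarith
    have h8 : Real.log n * (n * (R2 (cyc (k + 3)) : ℝ)) ≤ n * (2 * Real.log n ^ 2) := by
      have := mul_le_mul_of_nonneg_left h7 (by positivity : 0 ≤ Real.log n * n)
      nlinarith
    have h9 : n * (2 * Real.log n ^ 2) ≤ n * Real.log n ^ 3 * 2 := by
      have : Real.log n ^ 2 ≤ Real.log n ^ 3 := pow_le_pow_right₀ h4 (by norm_num)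
      nlinarith
    linarith
  have hP : ∀ C : ℝ, Tendsto (fun k => prob (cyc (k + 3)) (mm k)
        {x | (maxLoad x : ℝ) ≤ (mm k : ℝ) / ((k + 3 : ℕ) : ℝ) + C * R2 (cyc (k + 3))})
        atTop (𝓝 0) := by
    intro C
    rw [Metric.tendsto_atTop']
    intro η hη
    obtain ⟨c, hc, n₀, h⟩ := hMAI (η / 2) (by positivity)
    have h1 : ∀ᶠ k : ℕ in atTop, n₀ ≤ k := eventually_ge_atTop n₀
    have h4 : ∀ᶠ k : ℕ in atTop, (1 + (2 * (|C| + 1) / c) ^ 2 : ℝ) ≤ Real.log ((k + 3 : ℕ) : ℝ) :=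
      log_tend.eventually (eventually_ge_atTop _)
    have hall : ∀ᶠ k : ℕ in atTop, dist (prob (cyc (k + 3)) (mm k)
        {x | (maxLoad x : ℝ) ≤ (mm k : ℝ) / ((k + 3 : ℕ) : ℝ) + C * R2 (cyc (k + 3))}) 0 < η := by
      filter_upwards [h1, h4, mm_le] with k h1 h4 hle
      have h5 := h (k + 3) (mm k) (by omega) (Nat.le_ceil _) hle
      have h6 := prob_disj (cyc (k + 3)) (mm k)
        {x | (mm k : ℝ) / ((k + 3 : ℕ) : ℝ) + c * Real.log ((k + 3 : ℕ) : ℝ) ≤ maxLoad x}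
        {x | (maxLoad x : ℝ) ≤ (mm k : ℝ) / ((k + 3 : ℕ) : ℝ) + C * R2 (cyc (k + 3))} (by
          intro x hx hx'
          have hx1 : (mm k : ℝ) / ((k + 3 : ℕ) : ℝ) + c * Real.log ((k + 3 : ℕ) : ℝ) ≤
            maxLoad x := hx
          have hx2 : (maxLoad x : ℝ) ≤ (mm k : ℝ) / ((k + 3 : ℕ) : ℝ) +
            C * R2 (cyc (k + 3)) := hx'
          have h2 := hR2U (k + 3) (hc3 k)
          set ℓ := Real.log ((k + 3 : ℕ) : ℝ)
          have hC : C * (R2 (cyc (k + 3)) : ℝ) ≤ |C| * (√ℓ + 1) :=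
            (mul_le_mul_of_nonneg_right (le_abs_self C) (by positivity)).trans
              (mul_le_mul_of_nonneg_left h2 (abs_nonneg C))
          have hl1 : (1 : ℝ) ≤ ℓ := by nlinarith [sq_nonneg (2 * (|C| + 1) / c)]
          have hs1 : 1 ≤ √ℓ := by rw [Real.one_le_sqrt]; exact hl1
          have hs2 : 2 * (|C| + 1) / c ≤ √ℓ := by
            apply Real.le_sqrt_of_sq_le
            linarith
          have hss : √ℓ * √ℓ = ℓ := Real.mul_self_sqrt (by linarith)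
          rw [div_le_iff₀ hc] at hs2
          have : |C| * (√ℓ + 1) < c * ℓ := by
            have e1 : 2 * (|C| + 1) * √ℓ ≤ √ℓ * c * √ℓ :=
              mul_le_mul_of_nonneg_right hs2 (by positivity)
            have e2 : √ℓ * c * √ℓ = c * ℓ := by
              calc √ℓ * c * √ℓ = c * (√ℓ * √ℓ) := by ring
                _ = c * ℓ := by rw [hss]
            have hC0 := abs_nonneg C
            nlinarith
          linarith)
      have h7 := prob_nonneg (cyc (k + 3)) (mm k)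
        {x | (maxLoad x : ℝ) ≤ (mm k : ℝ) / ((k + 3 : ℕ) : ℝ) + C * R2 (cyc (k + 3))}
      rw [Real.dist_eq, sub_zero, abs_of_nonneg h7]
      linarith
    obtain ⟨N, hN⟩ := eventually_atTop.1 hall
    exact ⟨N, fun k hk => hN k hk.le⟩
  refine ⟨hMAI, ⟨mm, fun k => hCON (k + 3) (hc3 k), hR, hmR, hP⟩, ?_⟩
  rintro ⟨c, C, hc, hcC, h⟩
  have hcard : ∀ k : ℕ, (Fintype.card (ZMod (k + 3)) : ℝ) = ((k + 3 : ℕ) : ℝ) := fun k => by
    rw [ZMod.card]
  have h1 := h (fun k => ZMod (k + 3)) (fun k => cyc (k + 3)) mm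
    (fun k => (hCON (k + 3) (hc3 k)).1) (fun k => (hCON (k + 3) (hc3 k)).2)
    (by
      simp only [hcard]
      exact tendsto_natCast_atTop_atTop.comp (tendsto_add_atTop_nat 3))
    hR (by simp only [hcard]; exact hmR)
  have h2 : Tendsto (fun k => prob (cyc (k + 3)) (mm k)
      {x | (mm k : ℝ) / Fintype.card (ZMod (k + 3)) + c * R2 (cyc (k + 3)) ≤ maxLoad x ∧
        (maxLoad x : ℝ) ≤ (mm k : ℝ) / Fintype.card (ZMod (k + 3)) + C * R2 (cyc (k + 3))})
      atTop (𝓝 0) := by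
    refine tendsto_of_tendsto_of_tendsto_of_le_of_le tendsto_const_nhds (hP C)
      (fun k => prob_nonneg _ _ _) (fun k => prob_mono _ _ _ _ ?_)
    intro x hx
    have := hx.2
    simp only [hcard] at this
    exact this
  exact absurd (tendsto_nhds_unique h1 h2) one_ne_zero

end

end Pool.Agent.Q295.LB
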