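import Pool.Agent.Q295.LB.Qbb

set_option autoImplicit false

namespace Pool.Agent.Q295.LB

open Finset

/-- The profile of the weight function. -/
noncomputable def gg (n L : ℕ) (k : ℝ) : ℝ :=
  Real.exp (-(k / L)) + Real.exp (-(((n : ℝ) - k) / L))

theorem psi_gg (n L b : ℕ) (v : ZMod n) : psi n L b v = gg n L ((v - (b : ZMod n)).val : ℝ) := rfl

theorem gg_step (n L : ℕ) (k : ℝ) :
    gg n L (k + 1) ≤ Real.exp (1 / L) * gg n L k ∧ gg n L k ≤ Real.exp (1 / L) * gg n L (k + 1) := by
  have hq : (0 : ℝ) ≤ 1 / L := by positivity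
  have a1 : -((k + 1) / L) = -(1 / (L : ℝ)) + -(k / L) := by ring
  have a2 : -(((n : ℝ) - (k + 1)) / L) = 1 / (L : ℝ) + -(((n : ℝ) - k) / L) := by ring
  have p1 := Real.exp_pos (-(k / (L : ℝ)))
  have p2 := Real.exp_pos (-(((n : ℝ) - k) / (L : ℝ)))
  have hE : 1 ≤ Real.exp (1 / (L : ℝ)) := Real.one_le_exp hq
  have hEn : Real.exp (-(1 / (L : ℝ))) ≤ 1 := by
    rw [Real.exp_le_one_iff]; linarith
  have hprod : Real.exp (1 / (L : ℝ)) * Real.exp (-(1 / (L : ℝ))) = 1 := by
    rw [← Real.exp_add]; simp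
  have hEp := Real.exp_pos (-(1 / (L : ℝ)))
  unfold gg
  rw [a1, a2, Real.exp_add, Real.exp_add]
  constructor
  · nlinarith [mul_le_mul_of_nonneg_right (hEn.trans hE) p1.le]
  · have e1 : Real.exp (-(k / (L : ℝ))) = Real.exp (1 / (L : ℝ)) *
        (Real.exp (-(1 / (L : ℝ))) * Real.exp (-(k / (L : ℝ)))) := by
      rw [← mul_assoc, hprod, one_mul]
    have e2 : Real.exp (-(((n : ℝ) - k) / (L : ℝ))) ≤ Real.exp (1 / (L : ℝ)) *
        (Real.exp (1 / (L : ℝ)) * Real.exp (-(((n : ℝ) - k) / (L : ℝ)))) := by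
      have : 1 ≤ Real.exp (1 / (L : ℝ)) * Real.exp (1 / (L : ℝ)) := by nlinarith
      rw [← mul_assoc]
      nlinarith
    rw [mul_add]
    linarith

theorem val_succ {n : ℕ} [NeZero n] (w : ZMod n) :
    (w + 1).val = w.val + 1 ∨ ((w + 1).val = 0 ∧ w.val + 1 = n) := by
  have hlt : w.val < n := ZMod.val_lt w
  by_cases h : w.val + 1 < n
  · left
    have e : w + 1 = ((w.val + 1 : ℕ) : ZMod n) := by
      push_cast
      rw [ZMod.natCast_zmod_val]
    rw [e, ZMod.val_natCast, Nat.mod_eq_of_lt h]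
  · right
    have h1 : w.val + 1 = n := by omega
    refine ⟨?_, h1⟩
    have e : w + 1 = ((w.val + 1 : ℕ) : ZMod n) := by
      push_cast
      rw [ZMod.natCast_zmod_val]
    rw [e, ZMod.val_natCast, h1, Nat.mod_self]

theorem gg_wrap (n L : ℕ) : gg n L n = gg n L 0 := by
  unfold gg
  simp only [sub_self, sub_zero, zero_div, neg_zero, Real.exp_zero]
  ring

theorem one_sub_exp {L : ℝ} (hL : 1 ≤ L) : 1 / (2 * L) ≤ 1 - Real.exp (-(1 / L)) := by
  have hL0 : 0 < L := by linarith
  have h1 : 1 + 1 / L ≤ Real.exp (1 / L) := by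
    have := Real.add_one_le_exp (1 / L); linarith
  have h2 : Real.exp (-(1 / L)) ≤ 1 / (1 + 1 / L) := by
    rw [Real.exp_neg, ← one_div]
    exact one_div_le_one_div_of_le (by positivity) h1
  have h3 : 1 / (1 + 1 / L) = L / (L + 1) := by field_simp
  have h4 : L / (L + 1) ≤ 1 - 1 / (2 * L) := by
    rw [div_le_iff₀ (by positivity)]
    have : (1 - 1 / (2 * L)) * (L + 1) = L + (1 / 2 - 1 / (2 * L)) := by field_simp; ring
    rw [this]
    have : 1 / (2 * L) ≤ 1 / 2 := by
      apply one_div_le_one_div_of_le <;> linarith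
    linarith
  linarith

theorem sum_geo (n : ℕ) {L : ℝ} (hL : 1 ≤ L) :
    ∑ k ∈ range n, Real.exp (-((k : ℝ) / L)) ≤ 2 * L := by
  set q := Real.exp (-(1 / L)) with hq
  have hL0 : 0 < L := by linarith
  have h1 : ∀ k ∈ range n, Real.exp (-((k : ℝ) / L)) = q ^ k := by
    intro k _
    rw [hq, ← Real.exp_nat_mul]
    congr 1
    ring
  rw [Finset.sum_congr rfl h1]
  have h2 := one_sub_exp hL
  have hq1 : 0 < 1 - q := lt_of_lt_of_le (by positivity) h2
  have hq0 : 0 < q := Real.exp_pos _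
  have h3 : (∑ k ∈ range n, q ^ k) * (1 - q) = 1 - q ^ n := by
    rw [mul_comm, mul_neg_geom_sum]
  have h4 : ∑ k ∈ range n, q ^ k ≤ 1 / (1 - q) := by
    rw [le_div_iff₀ hq1, h3]
    have := pow_pos hq0 n
    linarith
  refine h4.trans ?_
  rw [div_le_iff₀ hq1]
  have : 2 * L * (1 / (2 * L)) ≤ 2 * L * (1 - q) := mul_le_mul_of_nonneg_left h2 (by positivity)
  rwa [mul_one_div_cancel (by positivity)] at this

theorem psi_holds : S_PSI := by
  intro n _ L b hL hb
  have hn0 : 0 < n := NeZero.pos n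
  have hL0 : (1 : ℝ) ≤ L := by exact_mod_cast hL
  have hbn : b < n := by omega
  refine ⟨fun v => ?_, fun v => ?_, ?_, fun u hu1 hu2 => ?_⟩
  · rw [psi_gg]
    have hlt : ((v - (b : ZMod n)).val : ℝ) ≤ n := by exact_mod_cast (ZMod.val_lt _).le
    set k : ℝ := ((v - (b : ZMod n)).val : ℝ)
    have hk0 : 0 ≤ k := Nat.cast_nonneg _
    unfold gg
    refine ⟨by positivity, ?_⟩
    have e1 : Real.exp (-(k / L)) ≤ 1 := by
      rw [Real.exp_le_one_iff]
      have : 0 ≤ k / L := by positivity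
      linarith
    have e2 : Real.exp (-(((n : ℝ) - k) / L)) ≤ 1 := by
      rw [Real.exp_le_one_iff]
      have : 0 ≤ ((n : ℝ) - k) / L := div_nonneg (by linarith) (by linarith)
      linarith
    linarith
  · rw [psi_gg, psi_gg]
    have e : v + 1 - (b : ZMod n) = (v - b) + 1 := by ring
    rw [e]
    rcases val_succ (v - (b : ZMod n)) with h | ⟨h, h'⟩
    · rw [h]
      push_cast
      exact gg_step n L _
    · rw [h, Nat.cast_zero, ← gg_wrap]
      have h'' : (n : ℝ) = ((v - (b : ZMod n)).val : ℝ) + 1 := by exact_mod_cast h'.symm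
      have := gg_step n L ((v - (b : ZMod n)).val : ℝ)
      rw [← h''] at this
      exact this
  · have e : ∑ v, psi n L b v = ∑ w : ZMod n, gg n L (w.val : ℝ) := by
      refine Fintype.sum_equiv (Equiv.subRight (b : ZMod n)) _ _ fun v => ?_
      rw [psi_gg]; rfl
    rw [e, sum_val (fun k => gg n L (k : ℝ))]
    have e1 : ∑ k ∈ range n, gg n L (k : ℝ) = ∑ k ∈ range n, Real.exp (-((k : ℝ) / L)) +
        ∑ k ∈ range n, Real.exp (-(((n : ℝ) - k) / L)) := Finset.sum_add_distrib
    have e2 : ∑ k ∈ range n, Real.exp (-(((n : ℝ) - k) / L)) ≤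
        ∑ k ∈ range n, Real.exp (-((k : ℝ) / L)) := by
      rw [← Finset.sum_range_reflect]
      refine Finset.sum_le_sum fun k hk => ?_
      have hk' : k < n := Finset.mem_range.1 hk
      have : ((n - 1 - k : ℕ) : ℝ) = (n : ℝ) - 1 - k := by
        rw [Nat.cast_sub (by omega), Nat.cast_sub (by omega)]; simp
      rw [this]
      apply Real.exp_le_exp.2
      have : (k : ℝ) / L ≤ ((n : ℝ) - ((n : ℝ) - 1 - k)) / L := by
        apply div_le_div_of_nonneg_right _ (by linarith)
        linarith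
      linarith
    have e3 := sum_geo n hL0
    rw [e1]
    linarith
  · rw [psi_gg]
    have hval : (u - (b : ZMod n)).val = u.val - b := by
      have e : u - (b : ZMod n) = ((u.val - b : ℕ) : ZMod n) := by
        rw [Nat.cast_sub hu1, ZMod.natCast_zmod_val]
      rw [e, ZMod.val_natCast, Nat.mod_eq_of_lt]
      have := ZMod.val_lt u
      omega
    have hk : ((u - (b : ZMod n)).val : ℝ) ≤ L := by
      rw [hval]; exact_mod_cast (by omega : u.val - b ≤ L)
    set k : ℝ := ((u - (b : ZMod n)).val : ℝ)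
    unfold gg
    have e2 := Real.exp_pos (-(((n : ℝ) - k) / L))
    have e1 : Real.exp (-1) ≤ Real.exp (-(k / L)) := by
      apply Real.exp_le_exp.2
      have : k / L ≤ 1 := by rw [div_le_one (by linarith)]; exact hk
      linarith
    have e3 : (1 : ℝ) / 3 ≤ Real.exp (-1) := by
      rw [Real.exp_neg, ← one_div]
      apply one_div_le_one_div_of_le (Real.exp_pos 1)
      have := Real.exp_one_lt_d9
      linarith
    linarith

theorem til : S_TIL := by
  intro n _ L N θ hL hNL hθ hθ1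
  have hn0 : (0 : ℝ) < n := by exact_mod_cast NeZero.pos n
  have hL0 : (1 : ℝ) ≤ L := by exact_mod_cast hL
  have hb : ∀ j < N, j * L + L ≤ n := fun j hj => by
    calc j * L + L = (j + 1) * L := by ring
      _ ≤ N * L := Nat.mul_le_mul_right _ hj
      _ ≤ n := hNL
  have hLn : ∀ j < N, (L : ℝ) / n ≤ 1 := fun j hj => by
    rw [div_le_one hn0]
    have := hb j hj
    exact_mod_cast (by omega : L ≤ n)
  have hLn0 : 0 ≤ (L : ℝ) / n := by positivity
  set I : ℕ → ZMod n → ℝ := fun j u => if j * L ≤ u.val ∧ u.val < j * L + L then (1 : ℝ) else 0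
    with hI
  have hsum : ∀ j < N, ∑ u, I j u = L := fun j hj => sum_block L (j * L) (hb j hj)
  have hptl : ∀ j u, ptl n L (j * L) θ u = (1 + θ * (I j u - (L : ℝ) / n)) / n := fun _ _ => rfl
  have hg : ∀ j < N, ∀ u, |I j u - (L : ℝ) / n| ≤ 1 := by
    intro j hj u
    have := hLn j hj
    rw [abs_le, hI]
    dsimp only
    split_ifs <;> constructor <;> linarith
  have hII : ∀ j u, I j u * I j u = I j u := by
    intro j u
    rw [hI]; dsimp only
    split_ifs <;> ring
  have hIJ : ∀ j j', j ≠ j' → ∀ u, I j u * I j' u = 0 := by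
    intro j j' hjj u
    rw [hI]; dsimp only
    split_ifs with h1 h2
    · exfalso
      rcases lt_or_gt_of_ne hjj with h | h
      · have : (j + 1) * L ≤ j' * L := Nat.mul_le_mul_right _ h
        have e : (j + 1) * L = j * L + L := by ring
        omega
      · have : (j' + 1) * L ≤ j * L := Nat.mul_le_mul_right _ h
        have e : (j' + 1) * L = j' * L + L := by ring
        omega
    all_goals ring
  have hexp : ∀ j < N, ∀ j' < N, (n : ℝ) * ∑ u, ptl n L (j * L) θ u * ptl n L (j' * L) θ u =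
      1 + θ ^ 2 / n * (∑ u, I j u * I j' u - (L : ℝ) ^ 2 / n) := by
    intro j hj j' hj'
    have e : ∀ u, ptl n L (j * L) θ u * ptl n L (j' * L) θ u = (1 / (n : ℝ) ^ 2) *
        ((1 - θ * (L / n)) ^ 2 + θ * (1 - θ * (L / n)) * (I j u + I j' u) +
          θ ^ 2 * (I j u * I j' u)) := by
      intro u
      rw [hptl, hptl]
      field_simp
      ring
    simp only [e]
    rw [← Finset.mul_sum, Finset.sum_add_distrib, Finset.sum_add_distrib, ← Finset.mul_sum,
      ← Finset.mul_sum, Finset.sum_add_distrib, hsum j hj, hsum j' hj', Finset.sum_const,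
      Finset.card_univ, ZMod.card, nsmul_eq_mul]
    field_simp
    ring
  refine ⟨fun j hj u => ?_, fun j hj => ?_, fun j hj u => ?_, fun j hj => ?_,
    fun j hj j' hj' hjj => ?_⟩
  · rw [hptl]
    apply div_nonneg _ hn0.le
    have := hg j hj u
    rw [abs_le] at this
    nlinarith
  · simp only [hptl]
    rw [← Finset.sum_div, Finset.sum_add_distrib, ← Finset.mul_sum, Finset.sum_sub_distrib,
      hsum j hj, Finset.sum_const, Finset.sum_const, Finset.card_univ, ZMod.card, nsmul_eq_mul,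
      nsmul_eq_mul]
    field_simp
    ring
  · rw [hptl]
    have e : (1 + θ * (I j u - (L : ℝ) / n)) / n - 1 / n = θ / n * (I j u - (L : ℝ) / n) := by
      field_simp; ring
    rw [e, abs_mul, abs_of_nonneg (by positivity : 0 ≤ θ / (n : ℝ))]
    have := hg j hj u
    have h0 : 0 ≤ θ / (n : ℝ) := by positivity
    nlinarith
  · rw [hexp j hj j hj]
    simp only [hII]
    rw [hsum j hj]
    have e : θ ^ 2 / n * ((L : ℝ) - (L : ℝ) ^ 2 / n) ≤ θ ^ 2 / n * L := by
      apply mul_le_mul_of_nonneg_left _ (by positivity)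
      have : 0 ≤ (L : ℝ) ^ 2 / n := by positivity
      linarith
    have e2 : θ ^ 2 / n * (L : ℝ) = θ ^ 2 * L / n := by ring
    linarith
  · rw [hexp j hj j' hj']
    simp only [hIJ j j' hjj, Finset.sum_const_zero, zero_sub]
    have : 0 ≤ θ ^ 2 / n * ((L : ℝ) ^ 2 / n) := by positivity
    nlinarith

end Pool.Agent.Q295.LB
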