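import Pool.Agent.Q295.LB.Sli

set_option autoImplicit false

namespace Pool.Agent.Q295.LB

theorem sum_val {n : ℕ} [NeZero n] (g : ℕ → ℝ) : ∑ u : ZMod n, g u.val = ∑ k ∈ Finset.range n, g k := by
  obtain ⟨k, rfl⟩ : ∃ k, n = k + 1 := ⟨n - 1, by have := NeZero.pos n; omega⟩
  exact Fin.sum_univ_eq_sum_range g (k + 1)

/-- Indicator of the block. -/
theorem sum_block {n : ℕ} [NeZero n] (L b : ℕ) (hb : b + L ≤ n) :
    ∑ u : ZMod n, (if b ≤ u.val ∧ u.val < b + L then (1 : ℝ) else 0) = L := by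
  rw [sum_val (fun k => if b ≤ k ∧ k < b + L then (1 : ℝ) else 0), ← Finset.sum_filter]
  have : (Finset.range n).filter (fun k => b ≤ k ∧ k < b + L) = Finset.Ico b (b + L) := by
    ext k
    simp only [Finset.mem_filter, Finset.mem_range, Finset.mem_Ico]
    omega
  rw [this, Finset.sum_const, Nat.card_Ico, nsmul_eq_mul, mul_one]
  congr 1
  omega

theorem sum_block_psi {n : ℕ} [NeZero n] (L b : ℕ) (hb : b + L ≤ n) (ψ : ZMod n → ℝ)
    (h : ∀ u : ZMod n, b ≤ u.val → u.val < b + L → 1 / 3 ≤ ψ u) :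
    (L : ℝ) / 3 ≤ ∑ u : ZMod n, (if b ≤ u.val ∧ u.val < b + L then (1 : ℝ) else 0) * ψ u := by
  have h1 := sum_block L b hb
  calc (L : ℝ) / 3 = ∑ u : ZMod n, (if b ≤ u.val ∧ u.val < b + L then (1 : ℝ) else 0) * (1 / 3) := by
        rw [← Finset.sum_mul, h1]; ring
    _ ≤ _ := by
        refine Finset.sum_le_sum fun u _ => ?_
        by_cases hu : b ≤ u.val ∧ u.val < b + L
        · rw [if_pos hu, one_mul, one_mul]; exact h u hu.1 hu.2
        · rw [if_neg hu, zero_mul, zero_mul]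

theorem sum_psi_ge {n : ℕ} [NeZero n] (L b : ℕ) (hb : b + L ≤ n) (ψ : ZMod n → ℝ)
    (h0 : ∀ u, 0 ≤ ψ u)
    (h : ∀ u : ZMod n, b ≤ u.val → u.val < b + L → 1 / 3 ≤ ψ u) :
    (L : ℝ) / 3 ≤ ∑ u : ZMod n, ψ u := by
  refine (sum_block_psi L b hb ψ h).trans (Finset.sum_le_sum fun u _ => ?_)
  have := h0 u
  split_ifs <;> linarith

theorem tps (hPSI : S_PSI) : S_TPS := by
  intro n _ L b θ hL hb h48 hθ hθ1
  obtain ⟨h1, -, h3, h4⟩ := hPSI n L b hL hb
  have hn0 : (0 : ℝ) < n := by exact_mod_cast NeZero.pos n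
  have hL0 : (1 : ℝ) ≤ L := by exact_mod_cast hL
  set ψ : ZMod n → ℝ := psi n L b with hψ
  have hS0 : 0 ≤ ∑ v, ψ v := Finset.sum_nonneg fun v _ => (h1 v).1.le
  have hblk := sum_block_psi L b hb ψ h4
  have h48' : (48 : ℝ) * L ≤ n := by exact_mod_cast h48
  constructor
  · have e : ∑ u, ptl n L b θ u * ψ u = (1 / n) * (∑ v, ψ v + θ * ((∑ u : ZMod n,
        (if b ≤ u.val ∧ u.val < b + L then (1 : ℝ) else 0) * ψ u) - (L / n) * ∑ v, ψ v)) := by
      rw [Finset.mul_sum, ← Finset.sum_sub_distrib, Finset.mul_sum, ← Finset.sum_add_distrib,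
        Finset.mul_sum]
      refine Finset.sum_congr rfl fun u _ => ?_
      simp only [ptl]
      ring
    rw [e, div_eq_mul_one_div, mul_comm]
    refine mul_le_mul_of_nonneg_left ?_ (by positivity)
    have e1 : (L : ℝ) / n * ∑ v, ψ v ≤ L / 12 := by
      rw [div_mul_eq_mul_div, div_le_div_iff₀ hn0 (by norm_num)]
      have : (L : ℝ) * (∑ v, ψ v) ≤ L * (4 * L) := mul_le_mul_of_nonneg_left h3 (by positivity)
      nlinarith
    have e2 : (∑ v, ψ v) / 16 ≤ (∑ u : ZMod n,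
        (if b ≤ u.val ∧ u.val < b + L then (1 : ℝ) else 0) * ψ u) - (L / n) * ∑ v, ψ v := by
      linarith
    have := mul_le_mul_of_nonneg_left e2 hθ
    linarith
  · rw [Finset.mul_sum]
    refine Finset.sum_le_sum fun u _ => ?_
    have hp : ptl n L b θ u ≤ 2 / n := by
      simp only [ptl]
      refine div_le_div_of_nonneg_right ?_ hn0.le
      have hLn : 0 ≤ (L : ℝ) / n := by positivity
      have : θ * ((if b ≤ u.val ∧ u.val < b + L then (1 : ℝ) else 0) - (L : ℝ) / n) ≤ θ * 1 := by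
        refine mul_le_mul_of_nonneg_left ?_ hθ
        split_ifs <;> linarith
      linarith
    have hq := h1 u
    have e1 : ψ u ^ 2 ≤ 2 * ψ u := by nlinarith
    calc ptl n L b θ u * ψ u ^ 2 ≤ 2 / n * ψ u ^ 2 :=
          mul_le_mul_of_nonneg_right hp (by positivity)
      _ ≤ 2 / n * (2 * ψ u) := mul_le_mul_of_nonneg_left e1 (by positivity)
      _ = 4 / n * ψ u := by ring

theorem qbb (hPOT : S_POT) (hTPS : S_TPS) (hPSI : S_PSI) (hTIL : S_TIL) : S_QBB := by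
  intro n _ L N j θ hL hNL hj h48 hθ hθ1 M lam hM h4 h2 hl hl1 m hm
  obtain ⟨hp0, hp1, hpd, -, -⟩ := hTIL n L N θ hL hNL hθ.le hθ1
  have hb : j * L + L ≤ n := by
    calc j * L + L = (j + 1) * L := by ring
      _ ≤ N * L := Nat.mul_le_mul_right _ hj
      _ ≤ n := hNL
  obtain ⟨k1, k2, k3, k4⟩ := hPSI n L (j * L) hL hb
  obtain ⟨t1, t2⟩ := hTPS n L (j * L) θ hL hb h48 hθ.le hθ1
  have hge := sum_psi_ge L (j * L) hb (psi n L (j * L)) (fun u => (k1 u).1.le) k4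
  set b0 : ℕ := j * L
  set Ψ : ℝ := ∑ v, psi n L b0 v with hΨ
  have hn0 : (0 : ℝ) < n := by exact_mod_cast NeZero.pos n
  have hL0 : (1 : ℝ) ≤ L := by exact_mod_cast hL
  have hm0 : (0 : ℝ) < m := by exact_mod_cast hm
  have hΨ0 : 0 < Ψ := by linarith
  set t : ℝ := (m : ℝ) / n with ht
  have ht0 : 0 < t := by positivity
  set τ : ℝ := θ * t with hτ
  have hτ0 : 0 < τ := by positivity
  have hpot := hPOT n (ptl n L b0 θ) θ hθ.le hθ1 (hp1 j hj) (hp0 j hj) (hpd j hj) (psi n L b0)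
    (1 / L) M lam (L * τ * Ψ / 64) (τ * Ψ / 64) (t + τ / 32) (by positivity) hM
    (fun v => (k1 v).1.le) k2 h4 h2 hl hl1 (by positivity) (by positivity) m (by
      have e1 : Ψ * (1 + θ / 16) / n * m ≤ (∑ u, ptl n L b0 θ u * psi n L b0 u) * m :=
        mul_le_mul_of_nonneg_right t1 hm0.le
      have e2 : Ψ * (1 + θ / 16) / n * m = t * Ψ + τ * Ψ / 16 := by
        rw [hτ, ht]; field_simp
      have e3 : 1 / (L : ℝ) * (L * τ * Ψ / 64) = τ * Ψ / 64 := by field_simp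
      rw [e3]
      rw [← hΨ]
      nlinarith)
  refine hpot.trans ?_
  have a1 : Real.exp ((lam ^ 2 + 2 * lam * θ) / n) ^ m * (2 * n) * Real.exp (-(lam * M)) =
      2 * n * Real.exp ((lam ^ 2 + 2 * lam * θ) * t - lam * M) := by
    rw [← Real.exp_nat_mul, sub_eq_add_neg, Real.exp_add]
    have : (m : ℝ) * ((lam ^ 2 + 2 * lam * θ) / n) = (lam ^ 2 + 2 * lam * θ) * t := by
      rw [ht]; field_simp
    rw [this]
    ring
  have a2 : 8 * Ψ * m / n / (L * τ * Ψ / 64) = 512 * t / (L * τ) := by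
    rw [ht]; field_simp; ring
  have a3 : (m * ∑ u, ptl n L b0 θ u * psi n L b0 u ^ 2) / (τ * Ψ / 64) ^ 2 ≤
      49152 * t / (τ ^ 2 * L) := by
    have e1 : m * ∑ u, ptl n L b0 θ u * psi n L b0 u ^ 2 ≤ 4 * t * Ψ := by
      calc m * ∑ u, ptl n L b0 θ u * psi n L b0 u ^ 2 ≤ m * (4 / n * Ψ) :=
            mul_le_mul_of_nonneg_left t2 hm0.le
        _ = 4 * t * Ψ := by rw [ht]; ring
    calc (m * ∑ u, ptl n L b0 θ u * psi n L b0 u ^ 2) / (τ * Ψ / 64) ^ 2
        ≤ 4 * t * Ψ / (τ * Ψ / 64) ^ 2 := div_le_div_of_nonneg_right e1 (by positivity)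
      _ = 16384 * t / (τ ^ 2 * Ψ) := by field_simp; ring
      _ ≤ 16384 * t / (τ ^ 2 * (L / 3)) := by
          refine div_le_div_of_nonneg_left (by positivity) (by positivity) ?_
          exact mul_le_mul_of_nonneg_left hge (by positivity)
      _ = 49152 * t / (τ ^ 2 * L) := by field_simp; ring
  rw [a1]
  rw [← hΨ] at *
  rw [a2]
  linarith

end Pool.Agent.Q295.LB
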