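import Pool.Agent.Q295.LB.Stm

set_option autoImplicit false

namespace Pool.Agent.Q295.LB

theorem slR_spec {n : ℕ} {x : ZMod n → ℕ} (hx : Lip x) (k : ℕ) (v : ZMod n) :
    x (slR x k v) ≤ x v ∧ slR x k v = v + ((x v - x (slR x k v) : ℕ) : ZMod n) ∧
    (x v ≤ k → x (slR x k v) ≤ x (slR x k v + 1)) ∧
    (x v ≤ x (v - 1) → x (slR x k v) ≤ x (slR x k v - 1)) := by
  induction k generalizing v with
  | zero =>
    refine ⟨le_rfl, by simp [slR], fun h => ?_, fun h => h⟩
    have h0 : x v = 0 := Nat.le_zero.1 h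
    simp only [slR]
    omega
  | succ k ih =>
    by_cases h : x (v + 1) < x v
    · have e : slR x (k + 1) v = slR x k (v + 1) := by simp only [slR, if_pos h]
      obtain ⟨h1, h2, h3, h4⟩ := ih (v + 1)
      have hv : x (v + 1) + 1 = x v := by
        have := (hx v).2
        omega
      rw [e]
      refine ⟨by omega, ?_, fun h' => h3 (by omega), fun _ => h4 ?_⟩
      · have e2 : x v - x (slR x k (v + 1)) = (x (v + 1) - x (slR x k (v + 1))) + 1 := by omega
        rw [e2]
        push_cast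
        conv_lhs => rw [h2]
        ring
      · rw [add_sub_cancel_right]
        omega
    · have e : slR x (k + 1) v = v := by simp only [slR, if_neg h]
      rw [e]
      exact ⟨le_rfl, by simp, fun _ => by omega, fun h => h⟩

theorem slL_spec {n : ℕ} {x : ZMod n → ℕ} (hx : Lip x) (k : ℕ) (v : ZMod n) :
    x (slL x k v) ≤ x v ∧ slL x k v = v - ((x v - x (slL x k v) : ℕ) : ZMod n) ∧
    (x v ≤ k → x (slL x k v) ≤ x (slL x k v - 1)) ∧
    (x v ≤ x (v + 1) → x (slL x k v) ≤ x (slL x k v + 1)) := by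
  induction k generalizing v with
  | zero =>
    refine ⟨le_rfl, by simp [slL], fun h => ?_, fun h => h⟩
    have h0 : x v = 0 := Nat.le_zero.1 h
    simp only [slL]
    omega
  | succ k ih =>
    by_cases h : x (v - 1) < x v
    · have e : slL x (k + 1) v = slL x k (v - 1) := by simp only [slL, if_pos h]
      obtain ⟨h1, h2, h3, h4⟩ := ih (v - 1)
      have hv : x (v - 1) + 1 = x v := by
        have := (hx (v - 1)).1
        rw [sub_add_cancel] at this
        omega
      rw [e]
      refine ⟨by omega, ?_, fun h' => h3 (by omega), fun _ => h4 ?_⟩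
      · have e2 : x v - x (slL x k (v - 1)) = (x (v - 1) - x (slL x k (v - 1))) + 1 := by omega
        rw [e2]
        push_cast
        conv_lhs => rw [h2]
        ring
      · rw [sub_add_cancel]
        omega
    · have e : slL x (k + 1) v = v := by simp only [slL, if_neg h]
      rw [e]
      exact ⟨le_rfl, by simp, fun _ => by omega, fun h => h⟩

theorem sli : S_SLI := by
  intro n _ x hx u c
  by_cases h : x (u + 1) < x u ∧ (x (u - 1) < x u → c = true)
  · have e : sl x u c = slR x (x u) u := by simp only [sl, if_pos h]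
    obtain ⟨k, hk⟩ : ∃ k, x u = k + 1 := ⟨x u - 1, by omega⟩
    have hv : x (u + 1) = k := by
      have := (hx u).2
      have := h.1
      omega
    have e1 : slR x (x u) u = slR x k (u + 1) := by
      rw [hk]; simp only [slR, if_pos h.1]
    obtain ⟨h1, h2, h3, -⟩ := slR_spec hx (x u) u
    obtain ⟨-, -, -, h4⟩ := slR_spec hx k (u + 1)
    rw [e]
    refine ⟨h1, Or.inl h2, h3 le_rfl, ?_⟩
    rw [e1]
    exact h4 (by rw [add_sub_cancel_right]; omega)
  · have e : sl x u c = slL x (x u) u := by simp only [sl, if_neg h]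
    obtain ⟨h1, h2, h3, h4⟩ := slL_spec hx (x u) u
    rw [e]
    refine ⟨h1, Or.inr h2, ?_, h3 le_rfl⟩
    by_cases hl : x (u - 1) < x u
    · obtain ⟨k, hk⟩ : ∃ k, x u = k + 1 := ⟨x u - 1, by omega⟩
      have hv : x (u - 1) = k := by
        have := (hx (u - 1)).1
        rw [sub_add_cancel] at this
        omega
      have e1 : slL x (x u) u = slL x k (u - 1) := by
        rw [hk]; simp only [slL, if_pos hl]
      obtain ⟨-, -, -, h5⟩ := slL_spec hx k (u - 1)
      rw [e1]
      exact h5 (by rw [sub_add_cancel]; omega)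
    · apply h4
      by_contra hc
      exact h ⟨by omega, fun h' => absurd h' hl⟩

theorem lip_inc {n : ℕ} {x : ZMod n → ℕ} (hx : Lip x) (v : ZMod n) (h1 : x v ≤ x (v + 1))
    (h2 : x v ≤ x (v - 1)) : Lip (inc x v) := by
  intro w
  have hw := hx w
  by_cases a : w = v
  · subst a
    by_cases b : w + 1 = w
    · simp only [b]; omega
    · simp only [inc, Function.update_self, Function.update_of_ne b]
      omega
  · by_cases b : w + 1 = v
    · subst b
      have e : w + 1 - 1 = w := by ring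
      rw [e] at h2
      simp only [inc, Function.update_self, Function.update_of_ne a]
      omega
    · simp only [inc, Function.update_of_ne a, Function.update_of_ne b]
      exact hw

theorem lip : S_LIP := by
  intro n _ x hx a
  obtain ⟨-, -, h1, h2⟩ := sli n x hx a.1 a.2
  exact lip_inc hx _ h1 h2

/-- Multiplicative Lipschitz functions: many steps. -/
theorem psi_steps {n : ℕ} (ψ : ZMod n → ℝ) (ε : ℝ)
    (h : ∀ v, ψ (v + 1) ≤ Real.exp ε * ψ v ∧ ψ v ≤ Real.exp ε * ψ (v + 1)) (D : ℕ) (v : ZMod n) :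
    ψ (v + (D : ZMod n)) ≤ Real.exp (ε * D) * ψ v ∧ ψ v ≤ Real.exp (ε * D) * ψ (v + (D : ZMod n)) := by
  induction D with
  | zero => simp
  | succ D ih =>
    have h1 := h (v + (D : ZMod n))
    have e : v + ((D + 1 : ℕ) : ZMod n) = v + (D : ZMod n) + 1 := by push_cast; ring
    have e2 : Real.exp (ε * ((D + 1 : ℕ) : ℝ)) = Real.exp ε * Real.exp (ε * D) := by
      rw [← Real.exp_add]; congr 1; push_cast; ring
    rw [e, e2]
    constructor
    · calc ψ (v + (D : ZMod n) + 1) ≤ Real.exp ε * ψ (v + (D : ZMod n)) := h1.1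
        _ ≤ Real.exp ε * (Real.exp (ε * D) * ψ v) :=
          mul_le_mul_of_nonneg_left ih.1 (Real.exp_pos _).le
        _ = _ := by ring
    · calc ψ v ≤ Real.exp (ε * D) * ψ (v + (D : ZMod n)) := ih.2
        _ ≤ Real.exp (ε * D) * (Real.exp ε * ψ (v + (D : ZMod n) + 1)) :=
          mul_le_mul_of_nonneg_left h1.2 (Real.exp_pos _).le
        _ = _ := by ring

/-- The weight at the final position of a ball. -/
theorem psi_sl {n : ℕ} [NeZero n] {x : ZMod n → ℕ} (hx : Lip x) (ψ : ZMod n → ℝ) (ε : ℝ)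
    (h : ∀ v, ψ (v + 1) ≤ Real.exp ε * ψ v ∧ ψ v ≤ Real.exp ε * ψ (v + 1)) (u : ZMod n)
    (c : Bool) :
    ψ (sl x u c) ≤ Real.exp (ε * ((x u : ℝ) - x (sl x u c))) * ψ u ∧
      ψ u ≤ Real.exp (ε * ((x u : ℝ) - x (sl x u c))) * ψ (sl x u c) := by
  obtain ⟨h1, h2, -, -⟩ := sli n x hx u c
  have hc : ((x u : ℝ) - x (sl x u c)) = ((x u - x (sl x u c) : ℕ) : ℝ) := by
    rw [Nat.cast_sub h1]
  rw [hc]
  set D := x u - x (sl x u c)
  rcases h2 with h2 | h2
  · have := psi_steps ψ ε h D u
    rw [h2]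
    exact this
  · have := psi_steps ψ ε h D (sl x u c)
    have e : sl x u c + (D : ZMod n) = u := by
      conv_lhs => rw [h2]
      ring
    rw [e] at this
    exact ⟨this.2, this.1⟩

theorem sum_update {n : ℕ} [NeZero n] (x : ZMod n → ℕ) (v : ZMod n) (g : ZMod n → ℕ → ℝ) :
    ∑ w, g w (inc x v w) = ∑ w, g w (x w) + (g v (x v + 1) - g v (x v)) := by
  rw [← Finset.add_sum_erase _ _ (Finset.mem_univ v), ← Finset.add_sum_erase _ (fun w => g w (x w))
    (Finset.mem_univ v)]
  have : ∑ w ∈ Finset.univ.erase v, g w (inc x v w) = ∑ w ∈ Finset.univ.erase v, g w (x w) := by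
    refine Finset.sum_congr rfl fun w hw => ?_
    rw [inc, Function.update_of_ne (Finset.ne_of_mem_erase hw)]
  rw [this]
  simp only [inc, Function.update_self]
  ring

theorem inv : S_INV := by
  intro n _ x hx ψ ε hε hψ h a
  have h1 := (psi_sl hx ψ ε h a.1 a.2).2
  obtain ⟨h2, -, -, -⟩ := sli n x hx a.1 a.2
  have hD : (0 : ℝ) ≤ (x a.1 : ℝ) - x (sl x a.1 a.2) := by
    have : (x (sl x a.1 a.2) : ℝ) ≤ x a.1 := by exact_mod_cast h2
    linarith
  set D : ℝ := (x a.1 : ℝ) - x (sl x a.1 a.2)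
  have h3 := sum_update x (sl x a.1 a.2) (fun w k => ψ w * (k : ℝ))
  have h4 : ∑ v, ψ v * (stp x a v : ℝ) = ∑ w, ψ w * (x w : ℝ) + ψ (sl x a.1 a.2) := by
    rw [show stp x a = inc x (sl x a.1 a.2) from rfl, h3]
    push_cast
    ring
  rw [h4]
  have h5 : (1 - ε * D) * ψ a.1 ≤ ψ (sl x a.1 a.2) := by
    have e1 : 1 - ε * D ≤ Real.exp (-(ε * D)) := by
      have := Real.add_one_le_exp (-(ε * D))
      linarith
    calc (1 - ε * D) * ψ a.1 ≤ Real.exp (-(ε * D)) * ψ a.1 :=
          mul_le_mul_of_nonneg_right e1 (hψ _)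
      _ ≤ Real.exp (-(ε * D)) * (Real.exp (ε * D) * ψ (sl x a.1 a.2)) :=
          mul_le_mul_of_nonneg_left h1 (Real.exp_pos _).le
      _ = ψ (sl x a.1 a.2) := by
          rw [← mul_assoc, ← Real.exp_add]; simp
  nlinarith

end Pool.Agent.Q295.LB
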