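import Pool.Agent.Q295.LB.Defs

set_option autoImplicit false

/-!
# Project LB: statements

Local search allocation on a cycle: the maximum load exceeds `m / n` by at least `c log n`
(row MP_d24e49_pr, Q1 is false).  All statements are self-contained; the proofs are complete in
the docstrings.
-/

namespace Pool.Agent.Q295.LB

noncomputable section

/-- SLI (slide facts).  Let `x` be Lipschitz, `u` a vertex, `c` a coin and `v = sl x u c` the final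
position.  Then `x v ≤ x u`, `v = u ± (x u - x v)`, and `v` is a local minimum.

Proof.  (a) Induction on `k`: `w = slR x k v` satisfies `x w ≤ x v` and `w = v + (x v - x w)` for
Lipschitz `x`: if `x (v+1) < x v` then `x (v+1) = x v - 1` by `Lip`, and
`(v + 1) + (x v - 1 - x w) = v + (x v - x w)`.  (b) If `x v ≤ k` then `x w ≤ x (w + 1)`: for `k = 0`
the load `x v = 0`; for `k + 1`, either the ball stays (then `x v ≤ x (v+1)`) or it moves to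
`v + 1` with load `≤ k`.  (c) If `x v ≤ x (v - 1)` then `x w ≤ x (w - 1)` (if the ball moves to
`v + 1` then `x (v+1) < x v = x ((v+1) - 1)`, and the induction hypothesis applies).
The same for `slL` with the signs exchanged.
(d) In `sl`: in the first case `x (u+1) < x u`, so `x u = k + 1` with `k = x (u + 1)` and
`slR x (k+1) u = slR x k (u+1)`, and (b), (c) apply to `v = u + 1` (here `x (u+1) ≤ x u`, which is
the hypothesis of (c) at `u + 1`).  In the second case: if `x (u - 1) < x u` the same with left and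
right exchanged; otherwise `x u ≤ x (u-1)`, the ball stays at `u`, and `x u ≤ x (u+1)` since
otherwise the first case would hold. -/
def S_SLI : Prop := ∀ (n : ℕ) [NeZero n] (x : ZMod n → ℕ), Lip x → ∀ (u : ZMod n) (c : Bool),
  x (sl x u c) ≤ x u ∧
  (sl x u c = u + ((x u - x (sl x u c) : ℕ) : ZMod n) ∨
    sl x u c = u - ((x u - x (sl x u c) : ℕ) : ZMod n)) ∧
  x (sl x u c) ≤ x (sl x u c + 1) ∧ x (sl x u c) ≤ x (sl x u c - 1)

/-- LIP (Lipschitz is preserved).  Proof: from `S_SLI`, `v = sl x u c` is a local minimum, so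
raising the load at `v` by one keeps `x' v = x v + 1 ≤ x (v ± 1) + 1` and
`x (v ± 1) ≤ x v + 1 ≤ x' v + 1`.  (Cases `w = v` and `w + 1 = v` in `Function.update`; if
`v + 1 = v` everything is trivial.) -/
def S_LIP : Prop := ∀ (n : ℕ) [NeZero n] (x : ZMod n → ℕ), Lip x → ∀ a : ZMod n × Bool,
  Lip (stp x a)

/-- BRW (the local search on the cycle is the slide with a fair coin), `n ≥ 3`.

Proof.  For Lipschitz `x` and `n ≥ 3` the neighbours of `v` are the two distinct vertices `v + 1`,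
`v - 1`; a neighbour with load `< x v` has load exactly `x v - 1`, so it is a neighbour of minimal
load.  Hence `lower (cyc n) x v` is the set of those `w ∈ {v + 1, v - 1}` with `x w < x v`.
(a) If `x v ≤ x (v - 1)` then for all `k`: `walk (cyc n) x k v = PMF.pure (slR x k v)`.  Induction:
if `x (v+1) < x v` then `lower = {v + 1}`, the uniform law on a singleton is `pure`, and
`x (v + 1) ≤ x ((v+1) - 1)`, so the induction hypothesis applies; otherwise `lower = ∅`.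
(b) Symmetric with `slL`.
(c) At `u`: if both neighbours are lower, `x u = k + 1`, `lower = {u+1, u-1}` and
`walk = (uniform on {u+1,u-1}).bind (walk k)`, which is the image of the uniform law on `Bool` under
`c ↦ if c then slR x k (u+1) else slL x k (u-1)`, i.e. `sl x u c`.  If exactly one is lower the ball
is deterministic, and if none is lower it stays; in these cases `sl x u c` does not depend on `c`
and `PMF.map` of a constant function is `PMF.pure`.  The equality of the two `PMF`s in the case of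
two neighbours: `ext w`, or `PMF.uniformOfFinset` of the image of `Bool` under the injective map
`c ↦ if c then u+1 else u-1` (compare the values: both are `1/2` at `u ± 1`). -/
def S_BRW : Prop := ∀ (n : ℕ) [NeZero n], 3 ≤ n → ∀ (x : ZMod n → ℕ), Lip x → ∀ u : ZMod n,
  walk (cyc n) x (x u) u = (PMF.uniformOfFintype Bool).map (sl x u)

/-- BRG (bridge).  The probability of `A` under the local search allocation on the cycle is the
expectation of the indicator of `A` under the driven chain with uniform weights.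

Proof.  Induction on `m`, for all Lipschitz `x`.  `m = 0`: `PMF.toOuterMeasure_pure_apply`.
Step: by `S_BRW`, `place (cyc n) x = (uniform on ZMod n).bind fun u => (uniform on Bool).map
(fun c => inc x (sl x u c))`, and `toOuterMeasure` of a `bind` is `∑' p a * toOuterMeasure (f a) A`
(`PMF.toOuterMeasure_bind_apply`; for `PMF.map` use `PMF.map = bind` with `pure`).  So
`(alloc (cyc n) (m+1) x).toOuterMeasure A = ∑ u, (n)⁻¹ * ∑ c, 2⁻¹ *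
(alloc (cyc n) m (stp x (u,c))).toOuterMeasure A` (finite sums, `tsum_fintype`), take `toReal`
(all terms finite, `≤ 1`), and apply the induction hypothesis, `stp x (u,c)` being Lipschitz by
`S_LIP`.  `wt (fun _ => 1/n) (u,c) = 1/n/2`, `Fintype.sum_prod_type`. -/
def S_BRG : Prop := ∀ (n : ℕ) [NeZero n], 3 ≤ n → ∀ (m : ℕ) (x : ZMod n → ℕ), Lip x →
  ∀ A : Set (ZMod n → ℕ),
    ((alloc (cyc n) m x).toOuterMeasure A).toReal =
      Ex (wt fun _ => 1 / (n : ℝ)) stp m (A.indicator fun _ => (1 : ℝ)) x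

/-- CHI (mixtures of tilted laws are close to the uniform law).

Proof.  By induction on `m` (`Fin.consEquiv`, `Fin.prod_univ_succ`),
`Ex w F m f x = ∑ ω : Fin m → α, (∏ i, w (ω i)) * f (run F x ω)`, where `run F x ω` applies
`ω 0, ω 1, …` successively.  Let `K = |α|`, `ℓ b ω = ∏ i, K * w b (ω i)`, `ℓ = (1/N) ∑ b, ℓ b` and
let `E` be the average over the uniform law of `ω` (weights `K^{-m}`).  Then `E ℓ = 1`,
`E (ℓ b * ℓ b') = (K * ∑ a, w b a * w b' a)^m` (`Finset.prod_univ_sum` / `Fintype.sum_pow` type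
identity; prove `∑ ω, ∏ i, g (ω i) = (∑ a, g a)^m` once, by induction or
`Finset.prod_univ_sum`), which is `≤ 1` for `b ≠ b'` and `≤ (1 + κ)^m` for `b = b'`.
Hence `E (ℓ^2) ≤ 1 + (1 + κ)^m / N` and `E ((ℓ - 1)^2) = E (ℓ^2) - 1 ≤ (1 + κ)^m / N`.  Finally
`(1/N) ∑ b, Ex (w b) F m f x - Ex w₀ F m f x = E ((ℓ - 1) f) ≤ E |ℓ - 1| ≤ √(E (ℓ-1)^2)`. -/
def S_CHI : Prop := ∀ (S α : Type) [Fintype α] [Nonempty α] (N : ℕ) (F : S → α → S)
  (w : Fin N → α → ℝ) (κ : ℝ), 0 < N → 0 ≤ κ → (∀ b a, 0 ≤ w b a) → (∀ b, ∑ a, w b a = 1) →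
  (∀ b, (Fintype.card α : ℝ) * ∑ a, w b a * w b a ≤ 1 + κ) →
  (∀ b b', b ≠ b' → (Fintype.card α : ℝ) * ∑ a, w b a * w b' a ≤ 1) →
  ∀ (f : S → ℝ), (∀ x, 0 ≤ f x) → (∀ x, f x ≤ 1) → ∀ (m : ℕ) (x : S),
    (1 / (N : ℝ)) * ∑ b, Ex (w b) F m f x ≤
      Ex (fun _ => 1 / (Fintype.card α : ℝ)) F m f x + √((1 + κ) ^ m / N)

/-- ZST (one step of the exponential sum).

Proof.  Let `u, c` be given, `v = sl x u c`, `s = i / n`, `E v = exp (lam * (x v - s))`.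
`stp x (u,c)` differs from `x` only at `v`, where it is `x v + 1`, so
`∑ w, exp (lam * (stp x (u,c) w - s - 1/n)) = exp (-lam/n) * (Zf lam s x + (exp lam - 1) * E v)`.
Since `x v ≤ x u` (`S_SLI`), `(exp lam - 1) * E v ≤ (exp lam - 1) * E u` for both signs of `lam`.
Averaging with the weights `p u / 2`: `∑_{u,c} (p u / 2) * (exp lam - 1) * E u =
∑ u, p u * (exp lam - 1) * E u ≤ (1/n) * ((exp lam - 1) + |exp lam - 1| * θ) * Zf lam s x`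
because `|p u - 1/n| ≤ θ/n`.  So the left side is at most
`exp (-lam/n) * (1 + (exp lam - 1 + θ |exp lam - 1|)/n) * Zf ≤
exp ((exp lam - 1 - lam + θ |exp lam - 1|)/n) * Zf`, and for `|lam| ≤ 1`,
`exp lam - 1 - lam ≤ lam^2` and `|exp lam - 1| ≤ 2 |lam|` (`Real.abs_exp_sub_one_sub_id_le`,
`Real.abs_exp_sub_one_le`). -/
def S_ZST : Prop := ∀ (n : ℕ) [NeZero n] (x : ZMod n → ℕ), Lip x → ∀ (p : ZMod n → ℝ) (θ : ℝ),
  0 ≤ θ → (∑ u, p u = 1) → (∀ u, 0 ≤ p u) → (∀ u, |p u - 1 / (n : ℝ)| ≤ θ / n) →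
  ∀ lam : ℝ, |lam| ≤ 1 → ∀ s : ℝ,
    ∑ a, wt p a * Zf lam (s + 1 / n) (stp x a) ≤
      Real.exp ((lam ^ 2 + 2 * |lam| * θ) / n) * Zf lam s x

/-- EST (one step of the local energy).

Notation: `y v = x v - s`, `D = x u - x v` for `v = sl x u c`, so `0 ≤ D ≤ 2 M`, and by `S_SLI`
`v = u ± D`, hence by the hypothesis on `ψ` (induction on `D`)
`exp (-ε D) ψ u ≤ ψ v ≤ exp (ε D) ψ u`.  As `ε D ≤ 2 ε M ≤ 1/2` we get `|ψ v - ψ u| ≤ 2 ε D ψ u`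
and `ψ v ≤ 3 ψ u`.

Proof.  `En ψ (s + 1/n) (stp x (u,c)) = En ψ s x - (2/n) ∑ ψ y + n⁻² ∑ ψ + 2 ψ v y v +
ψ v (1 - 2/n)` (only the load at `v` changes; expand the squares; the last two terms are
`ψ v ((y v - 1/n + 1)^2 - (y v - 1/n)^2) = ψ v (2 y v + 1 - 2/n)`).
Now `2 ψ v y v = 2 ψ u y v + 2 (ψ v - ψ u) y v ≤ 2 ψ u (y u - D) + 4 ε D M ψ u
≤ 2 ψ u y u - ψ u D` since `4 ε M ≤ 1`; and `ψ v (1 - 2/n) ≤ 3 ψ u` (if `1 - 2/n < 0` the left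
side is `≤ 0`).
Averaging with weights `p u / 2`, `|p u - 1/n| ≤ θ/n`, `|y| ≤ M`:
`∑ p u * 2 ψ u y u ≤ (2/n) ∑ ψ y + (2 θ M / n) ∑ ψ`, `∑ p u * 3 ψ u ≤ 3 (1 + θ)/n ∑ ψ ≤
(6/n) ∑ ψ`, and `n⁻² ∑ ψ ≤ (1/n) ∑ ψ`.  With `2 θ M ≤ 1` the sum is at most
`En ψ s x + (8/n) ∑ ψ - ∑_{u,c} (p u / 2) ψ u D`. -/
def S_EST : Prop := ∀ (n : ℕ) [NeZero n] (x : ZMod n → ℕ), Lip x → ∀ (p : ZMod n → ℝ) (θ : ℝ),
  0 ≤ θ → θ ≤ 1 → (∑ u, p u = 1) → (∀ u, 0 ≤ p u) → (∀ u, |p u - 1 / (n : ℝ)| ≤ θ / n) →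
  ∀ (ψ : ZMod n → ℝ) (ε M s : ℝ), 0 ≤ ε → 0 ≤ M → (∀ v, 0 ≤ ψ v) →
  (∀ v, ψ (v + 1) ≤ Real.exp ε * ψ v ∧ ψ v ≤ Real.exp ε * ψ (v + 1)) →
  4 * ε * M ≤ 1 → 2 * θ * M ≤ 1 → (∀ v, |(x v : ℝ) - s| ≤ M) →
    ∑ a, wt p a * (En ψ (s + 1 / n) (stp x a) +
        ψ a.1 * ((x a.1 : ℝ) - x (sl x a.1 a.2))) ≤
      En ψ s x + 8 / n * ∑ v, ψ v

/-- INV (the weighted sum of the loads).  Proof: only the load at `v = sl x u c` changes, so the
left side grows by `ψ v ≥ exp (-ε D) ψ u ≥ (1 - ε D) ψ u` with `D = x u - x v` (`S_SLI`: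
`v = u ± D`). -/
def S_INV : Prop := ∀ (n : ℕ) [NeZero n] (x : ZMod n → ℕ), Lip x →
  ∀ (ψ : ZMod n → ℝ) (ε : ℝ), 0 ≤ ε → (∀ v, 0 ≤ ψ v) →
  (∀ v, ψ (v + 1) ≤ Real.exp ε * ψ v ∧ ψ v ≤ Real.exp ε * ψ (v + 1)) →
  ∀ a : ZMod n × Bool,
    (∑ v, ψ v * (x v : ℝ)) + ψ a.1 - ε * (ψ a.1 * ((x a.1 : ℝ) - x (sl x a.1 a.2))) ≤
      ∑ v, ψ v * (stp x a v : ℝ)

/-- POT (the potential function).  Let `p` be a law with `|p - 1/n| ≤ θ/n`,
`μ = ∑ p ψ`, `Ψ = ∑ ψ`.  The probability that the maximum load after `m` balls is less than `H`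
is at most the sum of three terms.

Proof.  For `i + k = m`, Lipschitz `x` and reals `A`, `B ≥ 0` with `A - ε B ≤ ∑ ψ x` we claim
`Ex (wt p) stp k f x ≤ exp ((lam^2 + 2 lam θ)/n)^k * (Zf lam (i/n) x + Zf (-lam) (i/n) x) *
exp (-lam M) + (En ψ (i/n) x + B + 8 Ψ k / n) / b + ((A - i μ)^2 + k σ) / a₁^2`,
where `f` is the indicator of `{maxLoad < H}` and `σ = ∑ p ψ^2`.  Induction on `k`.
`k = 0`, `i = m`: if `maxLoad x < H` then `∑ ψ x ≤ H Ψ`; if moreover `B < b` and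
`|A - m μ| < a₁` then `∑ ψ x ≥ A - ε B > m μ - a₁ - ε b ≥ H Ψ`, a contradiction (if `Ψ = 0` use
the strict inequality as well).  So `f x ≤ B / b + (A - m μ)^2 / a₁^2`.
Step: if `|x v - i/n| > M` for some `v` then `Zf lam + Zf (-lam) ≥ exp (lam M)`, the first term
is at least one, and the left side is at most one.  Otherwise `x` is good at `s = i/n`, and
`Ex (wt p) stp (k+1) f x = ∑ a, wt p a * Ex (wt p) stp k f (stp x a)`; apply the induction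
hypothesis with `A + ψ a.1` and `B + ψ a.1 * D a` (`S_LIP`, `S_INV`), and then `S_ZST` (for `lam`
and `-lam`), `S_EST` and `∑ a, wt p a * ((A + ψ a.1 - (i+1) μ)^2) = (A - i μ)^2 + ∑ p ψ^2 - μ^2 ≤
(A - i μ)^2 + σ`.
Finally take `i = 0`, `x = 0`, `A = B = 0`: `Zf (± lam) 0 0 = n`, `En ψ 0 0 = 0`. -/
def S_POT : Prop := ∀ (n : ℕ) [NeZero n] (p : ZMod n → ℝ) (θ : ℝ),
  0 ≤ θ → θ ≤ 1 → (∑ u, p u = 1) → (∀ u, 0 ≤ p u) → (∀ u, |p u - 1 / (n : ℝ)| ≤ θ / n) →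
  ∀ (ψ : ZMod n → ℝ) (ε M lam b a₁ H : ℝ), 0 ≤ ε → 0 ≤ M → (∀ v, 0 ≤ ψ v) →
  (∀ v, ψ (v + 1) ≤ Real.exp ε * ψ v ∧ ψ v ≤ Real.exp ε * ψ (v + 1)) →
  4 * ε * M ≤ 1 → 2 * θ * M ≤ 1 → 0 ≤ lam → lam ≤ 1 → 0 < b → 0 < a₁ →
  ∀ m : ℕ, H * (∑ v, ψ v) ≤ m * (∑ u, p u * ψ u) - a₁ - ε * b →
    Ex (wt p) stp m ({x | ((maxLoad x : ℕ) : ℝ) < H}.indicator fun _ => (1 : ℝ)) (fun _ => 0) ≤
      Real.exp ((lam ^ 2 + 2 * lam * θ) / n) ^ m * (2 * n) * Real.exp (-(lam * M)) +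
      (8 * (∑ v, ψ v) * m / n) / b + (m * ∑ u, p u * ψ u ^ 2) / a₁ ^ 2

/-- PSI (the weight function).  `n ≥ 1`, `1 ≤ L ≤ n`.

Proof.  Put `g k = exp (-k/L) + exp (-(n-k)/L)` for real `k`, so `psi v = g (v - b).val`.
`g (k+1) = exp (-1/L) exp (-k/L) + exp (1/L) exp (-(n-k)/L)` lies between `exp (-1/L) g k` and
`exp (1/L) g k`, and `g n = g 0`.  With `w = v - b`: `(w + 1).val = w.val + 1` if
`w.val + 1 < n`, else `(w+1).val = 0` and `w.val + 1 = n` (`ZMod.val_add`, `ZMod.val_one`, or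
`ZMod.val_add_one_of_lt`; the case `n = 1` separately or by the same argument).
Bounds: `psi ≤ 2` since both exponents are `≤ 0`.  `∑ v, psi v = ∑_{k<n} g k`
(`v ↦ (v - b).val` is a bijection onto `range n`) `≤ 2 ∑_{k ≥ 0} exp (-k/L) ≤ 2/(1 - exp (-1/L)) ≤
2 (L + 1) ≤ 4 L` (reverse the second sum `k ↦ n - k`; `1 - exp (-z) ≥ z/(1+z)`, from
`exp z ≥ 1 + z`; geometric sum `(1 - q^n)/(1-q)`).
Lower bound: if `b ≤ u.val < b + L` and `b < n`, then `(u - b).val = u.val - b < L`, so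
`psi u ≥ exp (-1) ≥ 1/3`. -/
def S_PSI : Prop := ∀ (n : ℕ) [NeZero n] (L b : ℕ), 1 ≤ L → b + L ≤ n →
  (∀ v : ZMod n, 0 < psi n L b v ∧ psi n L b v ≤ 2) ∧
  (∀ v : ZMod n, psi n L b (v + 1) ≤ Real.exp (1 / L) * psi n L b v ∧
    psi n L b v ≤ Real.exp (1 / L) * psi n L b (v + 1)) ∧
  (∑ v, psi n L b v ≤ 4 * L) ∧
  (∀ u : ZMod n, b ≤ u.val → u.val < b + L → 1 / 3 ≤ psi n L b u)

/-- TIL (the tilted laws).  `1 ≤ L`, `N L ≤ n`, blocks `[j L, (j+1) L)` for `j < N`,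
`0 ≤ θ ≤ 1`.

Proof.  Let `I j u` be the indicator of `j L ≤ u.val < j L + L` and `g j = I j - L/n`, so
`|g j| ≤ 1`, `∑ u, I j u = L` (the map `val` is a bijection of `ZMod n` onto `range n`),
`∑ g j = 0`; `ptl = (1 + θ g j)/n`.  This gives the first three claims.
`n ∑ u, ptl j * ptl j' = (1/n) ∑ (1 + θ g j)(1 + θ g j') = 1 + (θ^2/n) ∑ g j g j'` and
`∑ g j g j' = ∑ I j I j' - L^2/n`, which is `≤ L` for `j = j'` and `≤ 0` for `j ≠ j'` (disjoint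
blocks). -/
def S_TIL : Prop := ∀ (n : ℕ) [NeZero n] (L N : ℕ) (θ : ℝ), 1 ≤ L → N * L ≤ n → 0 ≤ θ → θ ≤ 1 →
  (∀ j < N, ∀ u : ZMod n, 0 ≤ ptl n L (j * L) θ u) ∧
  (∀ j < N, ∑ u : ZMod n, ptl n L (j * L) θ u = 1) ∧
  (∀ j < N, ∀ u : ZMod n, |ptl n L (j * L) θ u - 1 / (n : ℝ)| ≤ θ / n) ∧
  (∀ j < N, (n : ℝ) * ∑ u : ZMod n, ptl n L (j * L) θ u * ptl n L (j * L) θ u ≤
    1 + θ ^ 2 * L / n) ∧
  (∀ j < N, ∀ j' < N, j ≠ j' →
    (n : ℝ) * ∑ u : ZMod n, ptl n L (j * L) θ u * ptl n L (j' * L) θ u ≤ 1)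

/-- TPS (the mean of the weight function under the tilted law).

Proof.  `n * ∑ ptl * psi = ∑ psi + θ (∑_{u in the block} psi u - (L/n) ∑ psi) ≥
∑ psi + θ (L/3 - (L/n) 4 L) ≥ ∑ psi + θ L / 4` (`S_PSI`, `48 L ≤ n`; the block has exactly `L`
elements), and `L ≥ (∑ psi)/4`.  Second claim: `ptl ≤ 2/n` and `psi^2 ≤ 2 psi`. -/
def S_TPS : Prop := ∀ (n : ℕ) [NeZero n] (L b : ℕ) (θ : ℝ), 1 ≤ L → b + L ≤ n → 48 * L ≤ n →
  0 ≤ θ → θ ≤ 1 →
  (∑ v, psi n L b v) * (1 + θ / 16) / n ≤ ∑ u, ptl n L b θ u * psi n L b u ∧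
  ∑ u, ptl n L b θ u * psi n L b u ^ 2 ≤ 4 / n * ∑ v, psi n L b v

/-- QBB (estimate for one tilted law; `t = m/n`, `τ = θ t`).

Proof.  `S_POT` with `p = ptl n L b θ`, `ψ = psi n L b`, `ε = 1/L`, `Ψ = ∑ ψ`, `a₁ = τ Ψ / 64`,
`b := L τ Ψ / 64`, `H = t + τ / 32`.  The condition is
`(t + τ/32) Ψ ≤ m ∑ p ψ - τ Ψ/64 - τ Ψ/64`, which holds since `m ∑ p ψ ≥ t Ψ (1 + θ/16) =
t Ψ + τ Ψ/16` (`S_TPS`).  The three terms: `exp ((lam² + 2 lam θ)/n)^m = exp ((lam² + 2 lam θ) t)`;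
`8 Ψ t/(L τ Ψ/64) = 512 t/(L τ)`; `m σ ≤ 4 t Ψ`, divided by `(τ Ψ/64)²` gives
`16384 t/(τ² Ψ) ≤ 49152 t/(τ² L)` since `Ψ ≥ L/3` (the block has `L` elements, each with
`psi ≥ 1/3`). -/
def S_QBB : Prop := ∀ (n : ℕ) [NeZero n] (L N j : ℕ) (θ : ℝ), 1 ≤ L → N * L ≤ n → j < N →
  48 * L ≤ n → 0 < θ → θ ≤ 1 → ∀ (M lam : ℝ), 0 ≤ M → 4 * (1 / (L : ℝ)) * M ≤ 1 →
  2 * θ * M ≤ 1 → 0 ≤ lam → lam ≤ 1 → ∀ m : ℕ, 0 < m →
    Ex (wt (ptl n L (j * L) θ)) stp m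
      ({x | ((maxLoad x : ℕ) : ℝ) < (m : ℝ) / n + θ * (m / n) / 32}.indicator fun _ => (1 : ℝ))
      (fun _ => 0) ≤
      2 * n * Real.exp ((lam ^ 2 + 2 * lam * θ) * (m / n) - lam * M) +
      512 * (m / n) / (L * (θ * (m / n))) +
      49152 * (m / n) / ((θ * (m / n)) ^ 2 * L)

/-- PAR (choice of the parameters).  Write `t = m/n`, `ℓ = log n`.

Proof.  Let `η ∈ (0, 1)` (for larger `η` use `η = 1/2`), `c₁ = η/16384`, `K = 2048/(η c₁)`,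
`c = c₁/32`, and for given `n, m`: `θ = c₁ ℓ / t`, `L = ⌈K t/ℓ⌉`, `N = ⌊n/L⌋`,
`M = 6 √(ℓ t)`, `lam = √(ℓ/t)`.  For `n` large, uniformly in `ℓ³ ≤ t ≤ √n`:
`ℓ ≥ 1`, `K t/ℓ ≥ 1` so `K t / ℓ ≤ L ≤ 2 K t/ℓ`, and `2 K/ℓ ≤ 1/100` so `L ≤ √n/100 ≤ n/48`;
`N ≥ n/(2 L) ≥ √n` (as `L ≤ n`) and `N L ≤ n`;  `θ ≤ c₁ ≤ 1`;
`4 M/L ≤ 24 √(ℓ t) ℓ/(K t) = 24 ℓ^{3/2}/(K √t) ≤ 24/K ≤ 1`;
`2 θ M = 12 c₁ ℓ^{3/2}/√t ≤ 12 c₁ ≤ 1`;  `lam ≤ 1` since `t ≥ ℓ³ ≥ ℓ`;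
`lam² t = ℓ`, `2 lam θ t = 2 lam c₁ ℓ ≤ 2 ℓ`, `lam M = 6 ℓ`, so the first term is at most
`2 n exp (3 ℓ - 6 ℓ) = 2 n^{-2} ≤ η/8`;
`512 t/(L θ t) = 512 t/(L c₁ ℓ) ≤ 512/(K c₁) = η/4`;
`49152 t/((c₁ ℓ)² L) ≤ 49152/(c₁² ℓ K) = 24 η/(c₁ ℓ) ≤ η/8` for `n` large;
`(1 + θ² L/n)^m ≤ exp (θ² L t) = exp (c₁² ℓ² L/t) ≤ exp (2 K c₁² ℓ) = exp (4096 c₁ ℓ/η) =
exp (ℓ/4) = n^{1/4}`, so `√((1 + θ² L/n)^m/N) ≤ √(n^{1/4}/√n) = n^{-1/8} ≤ η/4`.
Total `≤ 3η/4 ≤ η`, and `θ t/32 = c ℓ`. -/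
def S_PAR : Prop := ∀ η : ℝ, 0 < η → ∃ c : ℝ, 0 < c ∧ ∃ n₀ : ℕ, ∀ n m : ℕ, n₀ ≤ n →
  (n : ℝ) * Real.log n ^ 3 ≤ m → (m : ℝ) ≤ n * √n →
  ∃ (L N : ℕ) (θ M lam : ℝ), 3 ≤ n ∧ 0 < m ∧ 1 ≤ L ∧ 0 < N ∧ N * L ≤ n ∧ 48 * L ≤ n ∧ 0 < θ ∧
    θ ≤ 1 ∧
    0 ≤ M ∧ 4 * (1 / (L : ℝ)) * M ≤ 1 ∧ 2 * θ * M ≤ 1 ∧ 0 ≤ lam ∧ lam ≤ 1 ∧
    c * Real.log n = θ * (m / n) / 32 ∧
    (2 * n * Real.exp ((lam ^ 2 + 2 * lam * θ) * (m / n) - lam * M) +
      512 * (m / n) / (L * (θ * (m / n))) +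
      49152 * (m / n) / ((θ * (m / n)) ^ 2 * L)) +
      √((1 + θ ^ 2 * L / n) ^ m / N) ≤ η

/-- MAI (the main estimate).  With probability at least `1 - η` the maximum load is at least
`m/n + c log n`, uniformly in `n (log n)^3 ≤ m ≤ n^{3/2}`.

Proof.  Take the parameters of `S_PAR`.  By `S_BRG` and the complement, `prob (cyc n) m
{maxLoad ≥ m/n + c log n} = 1 - Ex (wt (1/n)) stp m f 0` with `f` the indicator of
`{maxLoad < m/n + c log n}` (or apply `S_CHI` directly to the indicator `g = 1 - f` of the event):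
`S_CHI` with `α = ZMod n × Bool` (`card α = 2 n`, `wt (fun _ => 1/n) a = 1/(2n)`),
`w j = wt (ptl n L (j L) θ)`, `κ = θ² L/n` (`S_TIL`: `2 n ∑_{u,c} (p u/2)(p' u/2) =
n ∑ p p'`), applied to `g`: `(1/N) ∑ j, Ex (w j) stp m g 0 ≤ prob + √(…)`, and
`Ex (w j) stp m g 0 = 1 - Ex (w j) stp m f 0 ≥ 1 - (three terms)` by `S_QBB`. -/
def S_MAI : Prop := ∀ η : ℝ, 0 < η → ∃ c : ℝ, 0 < c ∧ ∃ n₀ : ℕ, ∀ (n : ℕ) [NeZero n] (m : ℕ),
  n₀ ≤ n → (n : ℝ) * Real.log n ^ 3 ≤ m → (m : ℝ) ≤ n * √n →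
    1 - η ≤ prob (cyc n) m {x | (m : ℝ) / n + c * Real.log n ≤ maxLoad x}

/-- R2U (upper bound for `R₂` of the cycle), `n ≥ 3`.

Proof.  Let `r = ⌈√(log n)⌉` (natural ceiling), so `r < √(log n) + 1` and `r² ≥ log n`;
`log n ≤ n - 1 ≤ (n-1)²` gives `√(log n) ≤ n - 1`, hence `r < n` and `r + 1 ≤ n`.  For every `u` the vertices `u, u+1, …, u+r` are distinct and at
distance `≤ r` from `u` (the walk to the right), so the ball has at least `r + 1` elements and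
`r (r+1) ≥ log n`.  So `r` belongs to the set and `sInf ≤ r`. -/
def S_R2U : Prop := ∀ (n : ℕ) [NeZero n], 3 ≤ n → (R2 (cyc n) : ℝ) ≤ √(Real.log n) + 1

/-- R2L (lower bound for `R₂` of the cycle), `n ≥ 3`.

Proof.  The set in the definition of `R2` is nonempty: `r = ⌈√(log n)⌉` belongs to it as in
`S_R2U` (or `r = n`: the ball is everything, or just `r ≥ log n` and the ball contains `u`).
For `r = R2 (cyc n)` (`Nat.sInf_mem`): `log n ≤ r * |ball|` and the ball of radius `r` around `u`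
is contained in `{u + j : |j| ≤ r}` (induction along a walk: a walk of length `k` from `u` ends at
`u + j` with an integer `|j| ≤ k`; the graph is connected, so a shortest walk exists), which has
at most `2 r + 1` elements.  So `log n ≤ r (2 r + 1) ≤ (2 r + 1)^2`. -/
def S_R2L : Prop := ∀ (n : ℕ) [NeZero n], 3 ≤ n →
  Real.log n ≤ (2 * (R2 (cyc n) : ℝ) + 1) ^ 2

/-- CON (the cycle is connected and vertex-transitive).  Proof: `u` is joined to `u + 1`, hence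
(induction) to `u + k` for all natural `k`, and every `v` is `u + (v - u).val`.  Translation by
`v - u` is an automorphism of the graph taking `u` to `v`. -/
def S_CON : Prop := ∀ (n : ℕ) [NeZero n], 3 ≤ n → (cyc n).Connected ∧ VT (cyc n)

end

end Pool.Agent.Q295.LB
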