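import Pool.Agent.Q295.LB.Sli

set_option autoImplicit false

namespace Pool.Agent.Q295.LB

theorem zst : S_ZST := by
  intro n _ x hx p θ hθ hp1 hp0 hpd lam hlam s
  have hn0 : (0 : ℝ) < n := by exact_mod_cast NeZero.pos n
  set E : ZMod n → ℝ := fun v => Real.exp (lam * ((x v : ℝ) - s)) with hE
  have hE0 : ∀ v, 0 ≤ E v := fun v => (Real.exp_pos _).le
  have hZ : Zf lam s x = ∑ v, E v := rfl
  have hZ0 : 0 ≤ Zf lam s x := by rw [hZ]; exact Finset.sum_nonneg fun v _ => hE0 v
  set δ : ℝ := Real.exp lam - 1 with hδ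
  -- one ball
  have h1 : ∀ a : ZMod n × Bool, Zf lam (s + 1 / n) (stp x a) ≤
      Real.exp (-(lam / n)) * (Zf lam s x + δ * E a.1) := by
    intro a
    obtain ⟨h2, -, -, -⟩ := sli n x hx a.1 a.2
    set v := sl x a.1 a.2
    have h3 := sum_update x v (fun _ k => Real.exp (lam * ((k : ℝ) - s)))
    have h4 : Zf lam (s + 1 / n) (stp x a) = Real.exp (-(lam / n)) *
        ∑ w, Real.exp (lam * ((inc x v w : ℝ) - s)) := by
      rw [Finset.mul_sum]
      refine Finset.sum_congr rfl fun w _ => ?_
      rw [← Real.exp_add]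
      congr 1
      show lam * ((stp x a w : ℝ) - (s + 1 / n)) = _
      have : stp x a = inc x v := rfl
      rw [this]; ring
    rw [h4, h3]
    apply mul_le_mul_of_nonneg_left _ (Real.exp_pos _).le
    have h5 : Real.exp (lam * (((x v + 1 : ℕ) : ℝ) - s)) - Real.exp (lam * ((x v : ℝ) - s)) =
        δ * E v := by
      rw [hδ, hE]
      have : lam * (((x v + 1 : ℕ) : ℝ) - s) = lam + lam * ((x v : ℝ) - s) := by push_cast; ring
      rw [this, Real.exp_add]
      ring
    have h6 : δ * E v ≤ δ * E a.1 := by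
      have hxv : (x v : ℝ) ≤ x a.1 := by exact_mod_cast h2
      rcases le_total 0 lam with hl | hl
      · apply mul_le_mul_of_nonneg_left
        · apply Real.exp_le_exp.2
          exact mul_le_mul_of_nonneg_left (by linarith) hl
        · rw [hδ]; have := Real.one_le_exp hl; linarith
      · apply mul_le_mul_of_nonpos_left
        · apply Real.exp_le_exp.2
          exact mul_le_mul_of_nonpos_left (by linarith) hl
        · rw [hδ]
          have : Real.exp lam ≤ 1 := Real.exp_le_one_iff.2 hl
          linarith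
    have h7 : Zf lam s x = ∑ w, Real.exp (lam * ((x w : ℝ) - s)) := rfl
    rw [h7]
    linarith
  have hwt : ∀ a : ZMod n × Bool, 0 ≤ wt p a := fun a => by
    have := hp0 a.1
    simp only [wt]; linarith
  have h2 : ∑ a, wt p a * Zf lam (s + 1 / n) (stp x a) ≤
      Real.exp (-(lam / n)) * (Zf lam s x + δ * ∑ u, p u * E u) := by
    calc ∑ a, wt p a * Zf lam (s + 1 / n) (stp x a)
        ≤ ∑ a : ZMod n × Bool, wt p a * (Real.exp (-(lam / n)) * (Zf lam s x + δ * E a.1)) :=
          Finset.sum_le_sum fun a _ => mul_le_mul_of_nonneg_left (h1 a) (hwt a)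
      _ = ∑ u, p u * (Real.exp (-(lam / n)) * (Zf lam s x + δ * E u)) := by
          rw [Fintype.sum_prod_type]
          refine Finset.sum_congr rfl fun u _ => ?_
          simp only [wt, Fintype.sum_bool]
          ring
      _ = Real.exp (-(lam / n)) * ((∑ u, p u) * Zf lam s x + δ * ∑ u, p u * E u) := by
          rw [Finset.sum_mul, Finset.mul_sum, ← Finset.sum_add_distrib, Finset.mul_sum]
          refine Finset.sum_congr rfl fun u _ => ?_
          ring
      _ = _ := by rw [hp1, one_mul]
  have h3 : δ * ∑ u, p u * E u ≤ (δ + |δ| * θ) / n * Zf lam s x := by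
    have e : δ * ∑ u, p u * E u = δ / n * Zf lam s x + ∑ u, δ * (p u - 1 / n) * E u := by
      rw [hZ, Finset.mul_sum, Finset.mul_sum, ← Finset.sum_add_distrib]
      refine Finset.sum_congr rfl fun u _ => ?_
      ring
    have e2 : ∑ u, δ * (p u - 1 / n) * E u ≤ ∑ u, |δ| * (θ / n) * E u := by
      refine Finset.sum_le_sum fun u _ => mul_le_mul_of_nonneg_right ?_ (hE0 u)
      calc δ * (p u - 1 / n) ≤ |δ * (p u - 1 / n)| := le_abs_self _
        _ = |δ| * |p u - 1 / n| := abs_mul _ _
        _ ≤ |δ| * (θ / n) := mul_le_mul_of_nonneg_left (hpd u) (abs_nonneg _)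
    rw [e]
    rw [← Finset.mul_sum, ← hZ] at e2
    have e3 : (δ + |δ| * θ) / n * Zf lam s x = δ / n * Zf lam s x + |δ| * (θ / n) * Zf lam s x := by
      ring
    linarith
  have h4 : δ ≤ lam + lam ^ 2 := by
    have := Real.abs_exp_sub_one_sub_id_le hlam
    rw [abs_le] at this
    linarith [this.2]
  have h5 : |δ| ≤ 2 * |lam| := Real.abs_exp_sub_one_le hlam
  calc ∑ a, wt p a * Zf lam (s + 1 / n) (stp x a)
      ≤ Real.exp (-(lam / n)) * (Zf lam s x + δ * ∑ u, p u * E u) := h2
    _ ≤ Real.exp (-(lam / n)) * (Zf lam s x + (δ + |δ| * θ) / n * Zf lam s x) := by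
        apply mul_le_mul_of_nonneg_left _ (Real.exp_pos _).le
        linarith
    _ = Real.exp (-(lam / n)) * (1 + (δ + |δ| * θ) / n) * Zf lam s x := by ring
    _ ≤ Real.exp ((lam ^ 2 + 2 * |lam| * θ) / n) * Zf lam s x := by
        apply mul_le_mul_of_nonneg_right _ hZ0
        calc Real.exp (-(lam / n)) * (1 + (δ + |δ| * θ) / n)
            ≤ Real.exp (-(lam / n)) * Real.exp ((δ + |δ| * θ) / n) := by
              apply mul_le_mul_of_nonneg_left _ (Real.exp_pos _).le
              have := Real.add_one_le_exp ((δ + |δ| * θ) / n)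
              linarith
          _ = Real.exp (-(lam / n) + (δ + |δ| * θ) / n) := by rw [Real.exp_add]
          _ ≤ _ := by
              apply Real.exp_le_exp.2
              rw [neg_add_eq_sub, ← sub_div]
              apply div_le_div_of_nonneg_right _ hn0.le
              have : |δ| * θ ≤ 2 * |lam| * θ := mul_le_mul_of_nonneg_right h5 hθ
              linarith

end Pool.Agent.Q295.LB
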